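import Pool.Agent.D0H54.GA.Inf
import Pool.Agent.D0H54.Gk.Fin2

set_option linter.unusedSectionVars false

namespace Pool.Agent.D0H54.GA

open Polynomial Finset WithZero Gk

section gen

variable {k κ : Type*} [Field k] [Field κ] [Algebra k κ] [Fintype κ] [Fintype κˣ] [DecidableEq κˣ]

/-- change of coefficients -/
noncomputable def mp (k κ : Type*) [Field k] [Field κ] [Algebra k κ] : k[X] →+* κ[X] :=
  mapRingHom (algebraMap k κ)

/-- the universal polynomial -/
noncomputable def Ht (q l : ℕ) (w : k[X]) (rr : κ → k[X]) : κ[X][X] :=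
  ∑ a : κˣ, C (C ((a : κ)⁻¹ ^ l)) * (- C (mp k κ (rr a)) * (drho q w).map (mp k κ) +
    C (mp k κ w) * (drho q (rr a)).map (mp k κ)) *
    ∏ a' ∈ univ.erase a, (rho q (rr (a' : κ))).map (mp k κ)

variable {R : Type*} [CommRing R] (β : κ[X] →+* R) (Δ : R) (q l : ℕ) (θ : κ)
  (ε y : κ → R) (hadd : ∀ a b, ε (a + b) = ε a + ε b)
  (hsmul : ∀ (c : k) a, ε (algebraMap k κ c * a) = β (C (algebraMap k κ c)) * ε a)
  (haddy : ∀ a b, y (a + b) = y a + y b)
  (hsmuly : ∀ (c : k) a, y (algebraMap k κ c * a) = β (C (algebraMap k κ c)) * y a)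
  (h0 : ε 1 = 1) (h : ∀ a, ε (θ * a) = β X * ε a + Δ * ε a ^ q)
  (hy : ∀ a, y (θ * a) = ε a + β X * y a)
  (w : k[X]) (hw : aeval θ w = 0) (rr : κ → k[X]) (hrr : ∀ a, aeval θ (rr a) = a)

include hadd hsmul h0 h in
lemma rho_eval' (a : k[X]) : ((rho q a).map (mp k κ)).eval₂ β Δ = ε (aeval θ a) := by
  rw [eval₂_map]
  refine rho_eval (β.comp (mp k κ)) Δ q θ ε hadd ?_ h0 ?_ a
  · intro c a
    rw [hsmul, RingHom.comp_apply, mp, coe_mapRingHom, map_C]
  · intro a
    rw [h, RingHom.comp_apply, mp, coe_mapRingHom, map_X]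

include hadd hsmul h0 h haddy hsmuly hy in
lemma drho_eval' (a : k[X]) : ((drho q a).map (mp k κ)).eval₂ β Δ = y (aeval θ a) - β (mp k κ a) * y 1 := by
  rw [eval₂_map]
  rw [drho_eval (β.comp (mp k κ)) Δ q θ ε y haddy ?_ h0 ?_ ?_ a]
  · rw [RingHom.comp_apply]; ring
  · intro c a
    rw [hsmuly, RingHom.comp_apply, mp, coe_mapRingHom, map_C]
  · intro a
    rw [h, RingHom.comp_apply, mp, coe_mapRingHom, map_X]
  · intro a
    rw [hy, RingHom.comp_apply, mp, coe_mapRingHom, map_X]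

include hadd hsmul h0 h haddy hsmuly hy hw hrr in
lemma Ht_eval : (Ht q l w rr).eval₂ β Δ = β (mp k κ w) *
    ∑ a : κˣ, β (C ((a : κ)⁻¹ ^ l)) * y a * ∏ a' ∈ univ.erase a, ε (a' : κ) := by
  have hy0 : y 0 = 0 := by
    have := haddy 0 0
    rw [add_zero] at this
    simpa using this
  rw [Ht, eval₂_finsetSum, mul_sum]
  refine sum_congr rfl fun a _ => ?_
  rw [eval₂_mul, eval₂_mul, eval₂_C, eval₂_add, eval₂_mul, eval₂_mul, eval₂_neg, eval₂_C, eval₂_C,
    eval₂_finsetProd,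
    drho_eval' β Δ q θ ε y hadd hsmul haddy hsmuly h0 h hy,
    drho_eval' β Δ q θ ε y hadd hsmul haddy hsmuly h0 h hy, hw, hy0, hrr]
  have h1 : ∏ a' ∈ univ.erase a, ((rho q (rr (a' : κ))).map (mp k κ)).eval₂ β Δ =
      ∏ a' ∈ univ.erase a, ε (a' : κ) := by
    refine prod_congr rfl fun a' _ => ?_
    rw [rho_eval' β Δ q θ ε hadd hsmul h0 h, hrr]
  rw [h1]
  ring

include hadd hsmul h0 h haddy hsmuly hy hw hrr in
theorem gen_sum_zero (Ei : κˣ → R) (hEi : ∀ a : κˣ, ε (a : κ) * Ei a = 1)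
    (hdvd : (rho q w).map (mp k κ) ∣ Ht q l w rr) (hu : IsUnit (β (mp k κ w))) :
    ∑ a : κˣ, β (C ((a : κ)⁻¹ ^ l)) * (y (a : κ) * Ei a) = 0 := by
  have h1 := Ht_eval β Δ q l θ ε y hadd hsmul haddy hsmuly h0 h hy w hw rr hrr
  have h2 := rho_eval' β Δ q θ ε hadd hsmul h0 h w
  obtain ⟨Q, hQ⟩ := hdvd
  have hz : ε 0 = 0 := by
    have := hadd 0 0
    rw [add_zero] at this
    simpa using this
  rw [hQ, eval₂_mul, h2, hw, hz, zero_mul] at h1
  have h3 := (hu.mul_right_eq_zero).1 h1.symm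
  have h4 : (∏ a : κˣ, Ei a) * ∑ a : κˣ, β (C ((a : κ)⁻¹ ^ l)) * y (a : κ) *
      ∏ a' ∈ univ.erase a, ε (a' : κ) = 0 := by rw [h3, mul_zero]
  rw [mul_sum] at h4
  rw [← h4]
  refine sum_congr rfl fun a _ => ?_
  rw [← mul_prod_erase univ Ei (mem_univ a)]
  have h5 : (∏ a' ∈ univ.erase a, Ei a') * ∏ a' ∈ univ.erase a, ε (a' : κ) = 1 := by
    rw [← prod_mul_distrib]
    refine prod_eq_one fun a' _ => ?_
    rw [mul_comm, hEi]
  linear_combination (-(Ei a * (β (C ((a : κ)⁻¹ ^ l))) * y (a : κ))) * h5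

end gen

section E

variable {k κ E : Type*} [Field k] [Field κ] [Algebra k κ] [Fintype κ] [Fintype κˣ] [DecidableEq κˣ]
  [Field E] {q d : ℕ} {T : E} {θ : κ} {L : κ → E} (M : Datum q d T θ L)
  {p r : ℕ} [hp : Fact p.Prime] [CharP E p] (hqp : q = p ^ r) (hq2 : 2 ≤ q)
  (hcard : Fintype.card κ = q ^ d) (hd : 1 ≤ d)
  (D : Derivation ℤ E E) (hDT : D T = 1)
  (hadd : ∀ a b, L (a + b) = L a + L b)
  (hsmul : ∀ (c : k) a, L (algebraMap k κ c * a) = M.io (algebraMap k κ c) * L a)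
  (hact : ∀ a, L (θ * a) = T * L a + L a ^ q)
  (hLne : ∀ a, a ≠ 0 → L a ≠ 0)
  (hDio : ∀ a, D (M.io a) = 0)
  (w : k[X]) (hwm : w.Monic) (hwd : w.natDegree = d) (hw : aeval θ w = 0)
  (rr : κ → k[X]) (hrr : ∀ a, aeval θ (rr a) = a)

include hqp hDT hadd hsmul hact hLne hDio hw hrr hwm hwd hcard hd hq2 in
theorem rho_dvd_Ht (l : ℕ) (hH : M.H (Datum.hh D L) l = 0) :
    (rho q w).map (mp k κ) ∣ Ht q l w rr := by
  set β : κ[X] →+* E := eval₂RingHom M.io T with hβ
  have hβX : β X = T := by rw [hβ, coe_eval₂RingHom, eval₂_X]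
  have hβC : ∀ c, β (C c) = M.io c := fun c => by rw [hβ, coe_eval₂RingHom, eval₂_C]
  have hβinj : Function.Injective β := by
    rw [injective_iff_map_eq_zero]
    intro f hf
    exact M.hT f hf
  -- evaluation at `L b ^ (q-1)`
  have key : ∀ b : κ, b ≠ 0 →
      ((rho q w).map (mp k κ)).eval₂ β (L b ^ (q - 1)) = 0 ∧
      (Ht q l w rr).eval₂ β (L b ^ (q - 1)) = 0 := by
    intro b hb
    have hLb := hLne b hb
    set ε : κ → E := fun a => L (a * b) / L b with hε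
    set y : κ → E := fun a => D (L (a * b)) / L b with hy
    have e1 : ∀ a b, ε (a + b) = ε a + ε b := by
      intro a a'
      simp only [hε]
      rw [add_mul, hadd, add_div]
    have e2 : ∀ (c : k) a, ε (algebraMap k κ c * a) = β (C (algebraMap k κ c)) * ε a := by
      intro c a
      simp only [hε]
      rw [mul_assoc, hsmul, hβC, mul_div_assoc]
    have e3 : ∀ a b, y (a + b) = y a + y b := by
      intro a a'
      simp only [hy]
      rw [add_mul, hadd, map_add, add_div]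
    have e4 : ∀ (c : k) a, y (algebraMap k κ c * a) = β (C (algebraMap k κ c)) * y a := by
      intro c a
      simp only [hy]
      rw [mul_assoc, hsmul, hβC, Derivation.leibniz, hDio, smul_zero, add_zero, smul_eq_mul, mul_div_assoc]
    have e5 : ε 1 = 1 := by
      simp only [hε]
      rw [one_mul, div_self hLb]
    have e6 : ∀ a, ε (θ * a) = β X * ε a + L b ^ (q - 1) * ε a ^ q := by
      intro a
      simp only [hε]
      rw [mul_assoc, hact, hβX, div_pow]
      have h6 : L b ^ q = L b ^ (q - 1) * L b := by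
        rw [← pow_succ, Nat.sub_add_cancel (by omega)]
      rw [h6]
      have h7 : L b ^ (q - 1) ≠ 0 := pow_ne_zero _ hLb
      field_simp
    have e7 : ∀ a, y (θ * a) = ε a + β X * y a := by
      intro a
      simp only [hε, hy]
      rw [mul_assoc, hact, map_add, Derivation.leibniz, hDT, Datum.D_powq D hqp hq2, hβX]
      rw [smul_eq_mul, smul_eq_mul]
      field_simp
      ring
    refine ⟨?_, ?_⟩
    · rw [rho_eval' β (L b ^ (q - 1)) q θ ε e1 e2 e5 e6, hw]
      have := e1 0 0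
      rw [add_zero] at this
      simpa using this
    · rw [Ht_eval β (L b ^ (q - 1)) q l θ ε y e1 e2 e3 e4 e5 e6 e7 w hw rr hrr]
      have hεne : ∀ a : κˣ, ε a ≠ 0 := by
        intro a
        exact div_ne_zero (hLne _ (mul_ne_zero a.ne_zero hb)) hLb
      have f1 : ∀ a : κˣ, β (C ((a : κ)⁻¹ ^ l)) * y a * ∏ a' ∈ univ.erase a, ε (a' : κ) =
          (∏ a' : κˣ, ε (a' : κ)) * (M.io b ^ l * ((M.io ((a : κ) * b))⁻¹ ^ l * Datum.hh D L ((a : κ) * b))) := by
        intro a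
        have g1 : ∏ a' : κˣ, ε (a' : κ) = ε a * ∏ a' ∈ univ.erase a, ε (a' : κ) :=
          (mul_prod_erase univ _ (mem_univ a)).symm
        have g2 : y a = ε a * Datum.hh D L ((a : κ) * b) := by
          simp only [hy, hε, Datum.hh]
          have := hLne _ (mul_ne_zero a.ne_zero hb)
          field_simp
        have g3 : M.io b ≠ 0 := by
          intro h; rw [map_eq_zero] at h; exact hb h
        have g4 : M.io b ^ l * (M.io ((a : κ) * b))⁻¹ ^ l = β (C ((a : κ)⁻¹ ^ l)) := by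
          rw [hβC, map_pow, map_inv₀, map_mul, mul_inv, mul_pow, mul_left_comm, ← mul_pow,
            mul_inv_cancel₀ g3, one_pow, mul_one]
        rw [g1, g2, ← g4]
        ring
      simp_rw [f1]
      rw [← mul_sum, ← mul_sum]
      have f2 : ∑ a : κˣ, ((M.io ((a : κ) * b))⁻¹ ^ l * Datum.hh D L ((a : κ) * b)) = 0 := by
        rw [← hH, H_eq_sum]
        have f3 := Equiv.sum_comp (Equiv.mulRight (Units.mk0 b hb))
          (fun a : κˣ => (M.io (a : κ))⁻¹ ^ l * Datum.hh D L (a : κ))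
        rw [← f3]
        refine sum_congr rfl fun a _ => ?_
        simp only [Equiv.coe_mulRight, Units.val_mul, Units.val_mk0]
      rw [f2, mul_zero, mul_zero, mul_zero]
  have hmon := rho_monic q hq2 w hwm
  set ρ := (rho q w).map (mp k κ) with hρ
  have hρm : ρ.Monic := hmon.1.map _
  have hρd : ρ.natDegree = gg q d := by rw [hρ, hmon.1.natDegree_map, hmon.2, hwd]
  rw [← modByMonic_eq_zero_iff_dvd hρm]
  set Rm := Ht q l w rr %ₘ ρ with hRm
  have hdeg : Rm.natDegree < gg q d := by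
    rw [← hρd]
    refine natDegree_modByMonic_lt _ hρm ?_
    intro h
    have h1 : gg q d = 0 := by rw [← hρd, h, natDegree_one]
    obtain ⟨d', rfl⟩ : ∃ d', d = d' + 1 := ⟨d - 1, by omega⟩
    rw [gg] at h1
    omega
  have hev : ∀ b : κ, b ≠ 0 → Rm.eval₂ β (L b ^ (q - 1)) = 0 := by
    intro b hb
    have h1 := modByMonic_add_div (Ht q l w rr) ρ
    have h2 := congrArg (eval₂ β (L b ^ (q - 1))) h1
    rw [eval₂_add, eval₂_mul, (key b hb).1, (key b hb).2, zero_mul, add_zero] at h2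
    exact h2
  -- expand
  have hz : expand E (q - 1) (Rm.map β) = 0 := by
    refine eq_zero_of_natDegree_lt_card_of_eval_eq_zero _ (f := fun b : κˣ => L b) ?_ ?_ ?_
    · intro a b hab
      by_contra hne
      have h1 : (a : κ) - b ≠ 0 := sub_ne_zero.2 fun h => hne (Units.ext h)
      refine hLne _ h1 ?_
      have h2 := hadd ((a : κ) - b) b
      rw [sub_add_cancel] at h2
      simp only at hab
      rw [hab] at h2
      exact (left_eq_add.1 (by rw [add_comm]; exact h2))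
    · intro b
      rw [expand_eval, eval_map]
      exact hev b b.ne_zero
    · rw [natDegree_expand, natDegree_map_eq_of_injective hβinj, ← Nat.card_eq_fintype_card, Nat.card_units, Nat.card_eq_fintype_card, hcard,
        ← gg_eq q (by omega) d, mul_comm]
      exact Nat.mul_lt_mul_of_pos_left hdeg (by omega)
  rw [expand_eq_zero (by omega)] at hz
  exact (Polynomial.map_eq_zero_iff hβinj).1 hz

end E

section infinity

variable {k κ 𝕂 : Type*} [Field k] [Field κ] [Algebra k κ] [Fintype κ] [Fintype κˣ] [DecidableEq κˣ] [Field 𝕂]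
    {v : Valuation 𝕂 ℤᵐ⁰}
    {q : ℕ} {T : 𝕂} {θ : κ} (Z : ZD k κ 𝕂 v q T θ)
    {p r : ℕ} [hp : Fact p.Prime] [CharP 𝕂 p] (hqp : q = p ^ r) (hq : 2 ≤ q)
    (β : κ[X] →+* 𝕂) (hβ : ∀ a, β (mp k κ a) = Z.α a)
    (w : k[X]) (hw : aeval θ w = 0) (rr : κ → k[X]) (hrr : ∀ a, aeval θ (rr a) = a)

include hqp hβ hw hrr in
theorem sum_class_zero (l : ℕ) (hdvd : (rho q w).map (mp k κ) ∣ Ht q l w rr) (hβw : β (mp k κ w) ≠ 0) :
    ∑ a : κˣ, algebraMap 𝕂 (RI v) (β (C ((a : κ)⁻¹ ^ l))) * (Z.Yc hq (a : κ) * Z.Ei hq a) = 0 := by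
  set β' : κ[X] →+* RI v := (algebraMap 𝕂 (RI v)).comp β with hβ'
  have hβC : ∀ c : k, β' (C (algebraMap k κ c)) = Z.αc (C c) := by
    intro c
    rw [hβ', RingHom.comp_apply, ZD.αc, RingHom.comp_apply, ← hβ, mp, coe_mapRingHom, map_C]
  have hβX : β' X = Z.αc X := by
    rw [hβ', RingHom.comp_apply, ZD.αc, RingHom.comp_apply, ← hβ, mp, coe_mapRingHom, map_X]
  have e2 : ∀ (c : k) a, Z.Ec hq (algebraMap k κ c * a) = β' (C (algebraMap k κ c)) * Z.Ec hq a := by
    intro c a; rw [hβC, Z.Ec_smul]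
  have e4 : ∀ (c : k) a, Z.Yc hq (algebraMap k κ c * a) = β' (C (algebraMap k κ c)) * Z.Yc hq a := by
    intro c a; rw [hβC, Z.Yc_smul]
  have e6 : ∀ a, Z.Ec hq (θ * a) = β' X * Z.Ec hq a + Z.Dc hq * Z.Ec hq a ^ q := by
    intro a; rw [hβX]; exact Z.Ec_th hqp hq a
  have e7 : ∀ a, Z.Yc hq (θ * a) = Z.Ec hq a + β' X * Z.Yc hq a := by
    intro a; rw [hβX]; exact Z.Yc_th hqp hq a
  exact gen_sum_zero β' (Z.Dc hq) q l θ (Z.Ec hq) (Z.Yc hq) (Z.Ec_add hqp hq) e2 (Z.Yc_add hqp hq) e4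
    (Z.Ec_one hq) e6 e7 w hw rr hrr (Z.Ei hq) (Z.Ec_mul_Ei hq) hdvd
    ((isUnit_iff_ne_zero.2 hβw).map (algebraMap 𝕂 (RI v)))

end infinity

end Pool.Agent.D0H54.GA
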