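import Pool.Agent.D0H54.GA.RM

set_option linter.unusedSectionVars false

namespace Pool.Agent.D0H54.GA

open Polynomial Finset WithZero Gk

/-- data at infinity -/
structure ZD (k κ 𝕂 : Type*) [Field k] [Field κ] [Algebra k κ] [Field 𝕂] (v : Valuation 𝕂 ℤᵐ⁰)
    (q : ℕ) (T : 𝕂) (θ : κ) where
  α : k[X] →+* 𝕂
  hα : α X = T
  hαC : ∀ c : k, α (C c) ^ q = α (C c)
  z : κ → 𝕂
  zadd : ∀ a b, z (a + b) = z a + z b
  zsmul : ∀ (c : k) a, z (algebraMap k κ c * a) = α (C c) * z a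
  zth : ∀ a, ∃ c : 𝕂, c ^ q = c ∧ z (θ * a) = T * z a - c
  zv : ∀ a, v (z a) < 1
  zne : ∀ a, a ≠ 0 → z a ≠ 0
  hT : v T = exp 1
  D : Derivation ℤ 𝕂 𝕂
  hD : D T = 1
  hDv : ∀ x, v (D x) ≤ v x
  hDC : ∀ c : k, D (α (C c)) = 0

namespace ZD

variable {k κ 𝕂 : Type*} [Field k] [Field κ] [Algebra k κ] [Field 𝕂] {v : Valuation 𝕂 ℤᵐ⁰}
    {q : ℕ} {T : 𝕂} {θ : κ} (Z : ZD k κ 𝕂 v q T θ)
    {p r : ℕ} [hp : Fact p.Prime] [CharP 𝕂 p] (hqp : q = p ^ r) (hq : 2 ≤ q)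

/-- the sequence `R_{M+1}(z a)` -/
noncomputable def x (a : κ) : ℕ → 𝕂 := fun M => RM q T (M + 1) (Z.z a)

noncomputable def eps (a : κ) : ℕ → 𝕂 := fun M => Z.x a M / Z.x 1 M

noncomputable def yy (a : κ) : ℕ → 𝕂 := fun M => Z.D (Z.x a M) / Z.x 1 M

noncomputable def De : ℕ → 𝕂 := fun M => - br q T (M + 1) ^ q * Z.x 1 M ^ (q - 1)

lemma bdd_of_const {x : ℕ → 𝕂} (g : ℤᵐ⁰) (h : ∀ M, v (x M) ≤ g) : x ∈ Bd v := by
  by_cases hg : g = 0
  · exact ⟨0, fun M => (h M).trans (by rw [hg]; exact zero_le)⟩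
  · exact ⟨log g, fun M => by rw [exp_log hg]; exact h M⟩

include hq in
lemma v_x (a : κ) (M : ℕ) : v (Z.x a M) = v (Z.z a) * exp (-SS q (M + 1)) :=
  v_RM v q T Z.hT hq (M + 1) (Z.z a) (Z.zv a)

lemma vz_ne {a : κ} (ha : a ≠ 0) : v (Z.z a) ≠ 0 := v.ne_zero_iff.2 (Z.zne a ha)

include hq in
lemma x_ne {a : κ} (ha : a ≠ 0) (M : ℕ) : Z.x a M ≠ 0 := by
  intro h
  have := Z.v_x hq a M
  rw [h, map_zero] at this
  exact (mul_ne_zero (Z.vz_ne ha) exp_ne_zero) this.symm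

include hq in
lemma v_ratio (a : κ) {b : κ} (hb : b ≠ 0) (M : ℕ) : v (Z.x a M) / v (Z.x b M) = v (Z.z a) / v (Z.z b) := by
  rw [Z.v_x hq, Z.v_x hq]
  have h1 := Z.vz_ne hb
  have h2 : (exp (-SS q (M + 1)) : ℤᵐ⁰) ≠ 0 := exp_ne_zero
  rw [mul_div_mul_right _ _ h2]

include hq in
lemma eps_mem (a : κ) : Z.eps a ∈ Bd v := by
  refine bdd_of_const (v (Z.z a) / v (Z.z 1)) fun M => ?_
  rw [eps, map_div₀, Z.v_ratio hq a one_ne_zero]

include hq in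
lemma yy_mem (a : κ) : Z.yy a ∈ Bd v := by
  refine bdd_of_const (v (Z.z a) / v (Z.z 1)) fun M => ?_
  rw [yy, map_div₀, ← Z.v_ratio hq a one_ne_zero M]
  rw [div_eq_mul_inv, div_eq_mul_inv]
  exact mul_le_mul' (Z.hDv _) le_rfl

/-- inverse of `eps a` -/
noncomputable def ei (a : κ) : ℕ → 𝕂 := fun M => Z.x 1 M / Z.x a M

include hq in
lemma ei_mem {a : κ} (ha : a ≠ 0) : Z.ei a ∈ Bd v := by
  refine bdd_of_const (v (Z.z 1) / v (Z.z a)) fun M => ?_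
  rw [ei, map_div₀, Z.v_ratio hq 1 ha]

include hq in
lemma De_mem : Z.De ∈ Bd v := by
  refine bdd_of_const (v (Z.z 1) ^ (q - 1) * exp (q : ℤ)) fun M => ?_
  rw [De, map_mul, map_pow, Valuation.map_neg, map_pow, v_br v q T Z.hT hq, Z.v_x hq, mul_pow,
    ← exp_nsmul, ← exp_nsmul]
  have h1 := SS_eq q (M + 1)
  have h2 : (q - 1) • (-SS q (M + 1)) = - (((q : ℤ) - 1) * SS q (M + 1)) := by
    rw [nsmul_eq_mul, Nat.cast_sub (by omega)]; push_cast; ring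
  rw [h2, h1]
  have h3 : exp (q • (q : ℤ) ^ (M + 1)) * (v (Z.z 1) ^ (q - 1) * exp (-((q : ℤ) ^ (M + 1 + 1) - q))) =
      v (Z.z 1) ^ (q - 1) * (exp (q • (q : ℤ) ^ (M + 1)) * exp (-((q : ℤ) ^ (M + 1 + 1) - q))) :=
    mul_left_comm _ _ _
  rw [h3, ← exp_add]
  refine mul_le_mul' le_rfl ?_
  rw [exp_le_exp, nsmul_eq_mul, pow_succ (q : ℤ) (M + 1)]
  ring_nf
  exact le_rfl

/-- the classes -/
noncomputable def Ec (a : κ) : RI v := cl v (Z.eps a) (Z.eps_mem hq a)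
noncomputable def Yc (a : κ) : RI v := cl v (Z.yy a) (Z.yy_mem hq a)
noncomputable def Dc : RI v := cl v Z.De (Z.De_mem hq)

include hqp in
lemma x_add (a b : κ) (M : ℕ) : Z.x (a + b) M = Z.x a M + Z.x b M := by
  rw [x, x, x, Z.zadd, RM_add q T hqp]

lemma x_smul (c : k) (a : κ) (M : ℕ) : Z.x (algebraMap k κ c * a) M = Z.α (C c) * Z.x a M := by
  rw [x, x, Z.zsmul, RM_smul q T _ _ _ (Z.hαC c)]

include hqp hq in
lemma x_th (a : κ) (M : ℕ) : Z.x (θ * a) M = T * Z.x a M + RM q T M (Z.z a) ^ q := by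
  obtain ⟨c, hc1, hc2⟩ := Z.zth a
  have hbr := br_ne v q T Z.hT hq
  rw [x, x, hc2, RM_sub q T hqp, RM_T q T hqp hbr]
  have h1 : RM q T (M + 1) c = 0 := by
    have h2 := RM_smul q T (M + 1) c 1 hc1
    rw [mul_one, RM_one q T hqp hq hbr, mul_zero] at h2
    exact h2
  rw [h1, sub_zero]

include hqp in
lemma Ec_add (a b : κ) : Z.Ec hq (a + b) = Z.Ec hq a + Z.Ec hq b := by
  rw [Ec, Ec, Ec, ← cl_add]
  congr 1
  funext M
  rw [Pi.add_apply, eps, eps, eps, Z.x_add hqp, add_div]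

include hqp in
lemma Yc_add (a b : κ) : Z.Yc hq (a + b) = Z.Yc hq a + Z.Yc hq b := by
  rw [Yc, Yc, Yc, ← cl_add]
  congr 1
  funext M
  rw [Pi.add_apply, yy, yy, yy, Z.x_add hqp, map_add, add_div]

/-- structure map -/
noncomputable def αc : k[X] →+* RI v := (algebraMap 𝕂 (RI v)).comp Z.α

lemma Ec_smul (c : k) (a : κ) : Z.Ec hq (algebraMap k κ c * a) = Z.αc (C c) * Z.Ec hq a := by
  rw [αc, RingHom.comp_apply, algebraMap_eq, Ec, Ec, ← cl_mul]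
  congr 1
  funext M
  rw [Pi.mul_apply, eps, eps, Z.x_smul, mul_div_assoc]

lemma Yc_smul (c : k) (a : κ) : Z.Yc hq (algebraMap k κ c * a) = Z.αc (C c) * Z.Yc hq a := by
  rw [αc, RingHom.comp_apply, algebraMap_eq, Yc, Yc, ← cl_mul]
  congr 1
  funext M
  rw [Pi.mul_apply, yy, yy, Z.x_smul, Derivation.leibniz, Z.hDC, smul_zero, add_zero, smul_eq_mul,
    mul_div_assoc]

lemma Ec_one : Z.Ec hq 1 = 1 := by
  have h1 : (1 : RI v) = cl v (fun _ => (1 : 𝕂)) ((Bd v).one_mem) := rfl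
  rw [h1, Ec]
  congr 1
  funext M
  rw [eps, div_self (Z.x_ne hq one_ne_zero M)]

include hqp in
lemma Yc_th (a : κ) : Z.Yc hq (θ * a) = Z.Ec hq a + Z.αc X * Z.Yc hq a := by
  rw [αc, RingHom.comp_apply, algebraMap_eq, Yc, Yc, Ec, ← cl_mul, ← cl_add]
  congr 1
  funext M
  rw [Pi.add_apply, Pi.mul_apply, yy, yy, eps, Z.x_th hqp hq, map_add, Derivation.leibniz, Z.hD,
    Z.hα, smul_eq_mul, smul_eq_mul, Gk.Datum.D_powq Z.D hqp hq, add_zero]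
  ring

lemma SS_succ' (M : ℕ) : SS q (M + 1) = q + q * SS q M := by
  rw [SS, SS, sum_range_succ', mul_sum]
  simp only [zero_add, pow_one]
  rw [add_comm]
  congr 1
  refine sum_congr rfl fun j _ => ?_
  rw [pow_succ (q : ℤ) (j + 1)]; ring

include hqp in
lemma Ec_th (a : κ) : Z.Ec hq (θ * a) = Z.αc X * Z.Ec hq a + Z.Dc hq * Z.Ec hq a ^ q := by
  rw [αc, RingHom.comp_apply, algebraMap_eq, Ec, Ec, Dc, ← cl_pow, ← cl_mul, ← cl_mul, ← cl_add,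
    cl_eq_iff]
  have hbr := br_ne v q T Z.hT hq
  have h1 : ∀ M : ℕ, (Z.eps (θ * a) - ((fun _ => Z.α X : ℕ → 𝕂) * Z.eps a + Z.De * Z.eps a ^ q)) M =
      RM q T M (Z.z a) ^ (q * q) / Z.x 1 M := by
    intro M
    have hx1 := Z.x_ne hq (one_ne_zero) M
    rw [Pi.sub_apply, Pi.add_apply, Pi.mul_apply, Pi.mul_apply, Pi.pow_apply, eps, eps, De, Z.hα,
      Z.x_th hqp hq]
    have h2 := br_mul_RM q T hbr M (Z.z a)
    have h3 : RM q T M (Z.z a) ^ (q * q) - RM q T M (Z.z a) ^ q = br q T (M + 1) ^ q * Z.x a M ^ q := by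
      have h4 : Z.x a M = RM q T (M + 1) (Z.z a) := rfl
      rw [h4, ← mul_pow, h2, sub_pow_q q hqp, ← pow_mul]
    have h5 : Z.x 1 M ^ (q - 1) * (Z.x a M / Z.x 1 M) ^ q = Z.x a M ^ q / Z.x 1 M := by
      have h6 : Z.x 1 M ^ q = Z.x 1 M ^ (q - 1) * Z.x 1 M := by
        rw [← pow_succ, Nat.sub_add_cancel (by omega)]
      rw [div_pow, h6]
      have h7 : Z.x 1 M ^ (q - 1) ≠ 0 := pow_ne_zero _ hx1
      field_simp
    have h8 : -br q T (M + 1) ^ q * Z.x 1 M ^ (q - 1) * (Z.x a M / Z.x 1 M) ^ q =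
        - (br q T (M + 1) ^ q * Z.x a M ^ q) / Z.x 1 M := by
      rw [mul_assoc, h5]; ring
    rw [h8, ← h3]
    field_simp
    ring
  intro c
  have hv1 := Z.vz_ne (one_ne_zero)
  refine ⟨(log (v (Z.z 1))⁻¹ + q - c).toNat, fun M hM => ?_⟩
  rw [h1, map_div₀, map_pow, v_RM v q T Z.hT hq M _ (Z.zv a), Z.v_x hq, mul_pow, ← exp_nsmul]
  have h2 : v (Z.z a) ^ (q * q) ≤ 1 := pow_le_one₀ zero_le (Z.zv a).le
  have h3 : ((v (Z.z 1))⁻¹ : ℤᵐ⁰) = exp (log (v (Z.z 1))⁻¹) := (exp_log (inv_ne_zero hv1)).symm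
  rw [div_eq_mul_inv, mul_inv, ← exp_neg, h3]
  calc v (Z.z a) ^ (q * q) * exp ((q * q) • -SS q M) * (exp (log (v (Z.z 1))⁻¹) * exp (- -SS q (M + 1)))
      ≤ 1 * exp ((q * q) • -SS q M) * (exp (log (v (Z.z 1))⁻¹) * exp (- -SS q (M + 1))) := by
        gcongr
    _ = exp ((q * q) • -SS q M + (log (v (Z.z 1))⁻¹ + - -SS q (M + 1))) := by
        rw [one_mul, ← exp_add, ← exp_add]
    _ ≤ exp c := by
        rw [exp_le_exp, neg_neg, SS_succ', nsmul_eq_mul]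
        push_cast
        have h4 := SS_ge q hq M
        have h5 : (log (v (Z.z 1))⁻¹ + q - c) ≤ (M : ℤ) := by
          have := Int.self_le_toNat (log (v (Z.z 1))⁻¹ + q - c)
          have h6 : (((log (v (Z.z 1))⁻¹ + q - c).toNat : ℕ) : ℤ) ≤ (M : ℤ) := by exact_mod_cast hM
          omega
        have hq' : (2 : ℤ) ≤ q := by exact_mod_cast hq
        have h7 : SS q M ≤ (q : ℤ) * (q - 1) * SS q M := by
          have h8 : (1 : ℤ) ≤ q * (q - 1) := by nlinarith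
          have h9 := SS_nonneg q M
          nlinarith
        nlinarith

/-- the inverse class -/
noncomputable def Ei (a : κˣ) : RI v := cl v (Z.ei (a : κ)) (Z.ei_mem hq a.ne_zero)

lemma Ec_mul_Ei (a : κˣ) : Z.Ec hq (a : κ) * Z.Ei hq a = 1 := by
  have h1 : (1 : RI v) = cl v (fun _ => (1 : 𝕂)) ((Bd v).one_mem) := rfl
  rw [h1, Ec, Ei, ← cl_mul]
  congr 1
  funext M
  rw [Pi.mul_apply, eps, ei]
  have h2 := Z.x_ne hq one_ne_zero M
  have h3 := Z.x_ne hq a.ne_zero M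
  field_simp

end ZD

end Pool.Agent.D0H54.GA
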