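import Pool.Agent.D0H54.GA.RM
import Pool.Agent.D0H54.GB.LSum

set_option linter.unusedSectionVars false

namespace Pool.Agent.D0H54.GA

open Polynomial Finset

section low

variable {k : Type*} [Field k]

/-- polynomial with given low coefficients -/
noncomputable def low (j : ℕ) (a : Fin j → k) : k[X] := ∑ i, C (a i) * X ^ (i : ℕ)

lemma low_snoc (j : ℕ) (a : Fin j → k) (ξ : k) :
    low (j + 1) (Fin.snoc (α := fun _ => k) a ξ) = low j a + C ξ * X ^ j := by
  rw [low, low, Fin.sum_univ_castSucc]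
  simp

lemma low_smul (j : ℕ) (a : Fin j → k) (c : k) : low j (fun i => c * a i) = C c * low j a := by
  rw [low, low, mul_sum]
  refine sum_congr rfl fun i _ => ?_
  rw [C_mul]; ring

lemma mon_eq (j : ℕ) (a : Fin j → k) : GB.mon j a = X ^ j + low j a := rfl

lemma low_degree (j : ℕ) (a : Fin j → k) : (low j a).degree < j := GB.low_degree a

lemma low_coeff (j : ℕ) (f : k[X]) (hf : f.degree < j) : low j (fun i => f.coeff i) = f := by
  rw [low, Fin.sum_univ_eq_sum_range (fun i => C (f.coeff i) * X ^ i) j]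
  by_cases h : f = 0
  · subst h; simp
  · exact (as_sum_range_C_mul_X_pow' f ((natDegree_lt_iff_degree_lt h).2 hf)).symm

lemma coeff_low (j : ℕ) (a : Fin j → k) (i : Fin j) : (low j a).coeff i = a i := by
  rw [low, finsetSum_coeff, sum_eq_single i]
  · simp
  · intro b _ hb
    rw [coeff_C_mul_X_pow, if_neg]
    intro h; exact hb (Fin.ext h.symm)
  · intro h; exact absurd (mem_univ i) h

lemma low_inj (j : ℕ) : Function.Injective (low (k := k) j) := by
  intro a b h
  funext i
  rw [← coeff_low j a i, ← coeff_low j b i, h]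

variable [Fintype k]

lemma prod_low_succ {M : Type*} [CommMonoid M] (j : ℕ) (G : k[X] → M) :
    ∏ a : Fin (j + 1) → k, G (low (j + 1) a) =
      ∏ ξ : k, ∏ a : Fin j → k, G (low j a + C ξ * X ^ j) := by
  rw [← Equiv.prod_comp (Fin.snocEquiv (fun _ => k)), Fintype.prod_prod_type]
  refine prod_congr rfl fun ξ _ => prod_congr rfl fun a _ => ?_
  rw [← low_snoc]; rfl

lemma sum_low_succ {M : Type*} [AddCommMonoid M] (j : ℕ) (G : k[X] → M) :
    ∑ a : Fin (j + 1) → k, G (low (j + 1) a) =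
      ∑ ξ : k, ∑ a : Fin j → k, G (low j a + C ξ * X ^ j) := by
  rw [← Equiv.sum_comp (Fin.snocEquiv (fun _ => k)), Fintype.sum_prod_type]
  refine sum_congr rfl fun ξ _ => sum_congr rfl fun a _ => ?_
  rw [← low_snoc]; rfl

/-- sum over all polynomials of degree `< J` in terms of monic polynomials -/
lemma sum_low {M : Type*} [AddCommGroup M] (G : k[X] → M) (p : ℕ) (hp : ∀ x : M, (p : ℤ) • x = 0)
    (hpk : ∃ r, 0 < r ∧ Fintype.card k = p ^ r)
    (hG : ∀ (c : k) (f : k[X]), c ≠ 0 → G (C c * f) = G f) (J : ℕ) :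
    ∑ a : Fin J → k, G (low J a) = G 0 - ∑ j ∈ range J, ∑ a : Fin j → k, G (GB.mon j a) := by
  classical
  induction J with
  | zero => simp [low]
  | succ J ih =>
    rw [sum_low_succ, sum_range_succ, ← add_sum_erase univ _ (mem_univ (0 : k))]
    have h1 : ∑ a : Fin J → k, G (low J a + C (0 : k) * X ^ J) = ∑ a : Fin J → k, G (low J a) := by
      refine sum_congr rfl fun a _ => ?_
      rw [C_0, zero_mul, add_zero]
    have h2 : ∀ ξ ∈ univ.erase (0 : k), ∑ a : Fin J → k, G (low J a + C ξ * X ^ J) =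
        ∑ a : Fin J → k, G (GB.mon J a) := by
      intro ξ hξ
      have hξ0 : ξ ≠ 0 := (mem_erase.1 hξ).1
      have e : ∀ a : Fin J → k, G (GB.mon J a) = G (low J (fun i => ξ * a i) + C ξ * X ^ J) := by
        intro a
        rw [mon_eq, ← hG ξ _ hξ0, low_smul]
        congr 1
        ring
      simp_rw [e]
      let eq1 : (Fin J → k) ≃ (Fin J → k) :=
        { toFun := fun a i => ξ * a i
          invFun := fun a i => ξ⁻¹ * a i
          left_inv := fun a => by funext i; field_simp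
          right_inv := fun a => by funext i; field_simp }
      exact (Equiv.sum_comp eq1 (fun a => G (low J a + C ξ * X ^ J))).symm
    rw [sum_congr rfl h2, h1, ih, sum_const, card_erase_of_mem (mem_univ _), card_univ]
    obtain ⟨r, hr0, hr⟩ := hpk
    have h3 : (Fintype.card k - 1) • ∑ a : Fin J → k, G (GB.mon J a) = - ∑ a : Fin J → k, G (GB.mon J a) := by
      rw [eq_neg_iff_add_eq_zero]
      have h4 : (Fintype.card k - 1) • ∑ a : Fin J → k, G (GB.mon J a) + ∑ a : Fin J → k, G (GB.mon J a) =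
          (Fintype.card k) • ∑ a : Fin J → k, G (GB.mon J a) := by
        rw [← succ_nsmul, Nat.sub_add_cancel Fintype.card_pos]
      rw [h4, hr]
      obtain ⟨s, rfl⟩ : ∃ s, r = s + 1 := ⟨r - 1, by omega⟩
      rw [pow_succ, mul_smul]
      have h5 := hp (∑ a : Fin J → k, G (GB.mon J a))
      rw [natCast_zsmul] at h5
      rw [h5, smul_zero]
    rw [h3]
    abel

end low

section RMprod

variable {k 𝕂 : Type*} [Field k] [Fintype k] [Field 𝕂] {q : ℕ} (hqk : q = Fintype.card k) (T : 𝕂)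
  {p r : ℕ} [hp : Fact p.Prime] [CharP 𝕂 p] (hqp : q = p ^ r) (hq : 2 ≤ q)
  (hbr : ∀ M, br q T (M + 1) ≠ 0) (α : k[X] →+* 𝕂) (hα : α X = T)

include hqk in
lemma prod_add_xi (x : 𝕂) : ∏ ξ : k, (x + α (C ξ)) = x ^ q - x := by
  classical
  have h1 : (∏ ξ : k, (X - C ξ) : k[X]) = X ^ Fintype.card k - X := by
    have h2 := FiniteField.roots_X_pow_card_sub_X k
    have h3 : (X ^ Fintype.card k - X : k[X]).natDegree = Fintype.card k :=
      FiniteField.X_pow_card_sub_X_natDegree_eq k Fintype.one_lt_card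
    have hm : (X ^ Fintype.card k - X : k[X]).Monic := by
      refine monic_X_pow_sub ?_
      rw [degree_X]
      exact_mod_cast Fintype.one_lt_card
    have h4 := prod_multiset_X_sub_C_of_monic_of_roots_card_eq hm (by
      rw [h2, h3]; rfl)
    rw [h2] at h4
    exact h4
  have h5 : ∏ ξ : k, (x + α (C ξ)) = ∏ ξ : k, (x - α (C ξ)) := by
    rw [← Equiv.prod_comp (Equiv.neg k)]
    refine prod_congr rfl fun ξ _ => ?_
    simp [sub_eq_add_neg]
  rw [h5]
  have h6 := congrArg (eval₂ (α.comp C) x) h1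
  rw [eval₂_finsetProd, eval₂_sub, eval₂_pow, eval₂_X, ← hqk] at h6
  rw [← h6]
  refine prod_congr rfl fun ξ _ => ?_
  rw [eval₂_sub, eval₂_X, eval₂_C]
  rfl

include hqk hqp hq hbr hα in
theorem prod_RM (M : ℕ) : ∃ c : 𝕂, c ≠ 0 ∧ ∀ z, ∏ a : Fin M → k, (z + α (low M a)) = c * RM q T M z := by
  classical
  induction M with
  | zero =>
    refine ⟨1, one_ne_zero, fun z => ?_⟩
    simp [low, RM]
  | succ M ih =>
    obtain ⟨c, hc, h⟩ := ih
    refine ⟨c ^ q * br q T (M + 1), mul_ne_zero (pow_ne_zero _ hc) (hbr M), fun z => ?_⟩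
    rw [prod_low_succ M (fun f => z + α f)]
    have h1 : ∀ ξ : k, ∏ a : Fin M → k, (z + α (low M a + C ξ * X ^ M)) =
        c * (RM q T M z + α (C ξ)) := by
      intro ξ
      have h2 := h (z + α (C ξ) * T ^ M)
      have h3 : α (C ξ) ^ q = α (C ξ) := by
        rw [← map_pow, ← C_pow, hqk, FiniteField.pow_card]
      rw [RM_add q T hqp, RM_smul q T M _ _ h3, (RM_Tpow q T hqp hq hbr M).1, mul_one] at h2
      rw [← h2]
      refine prod_congr rfl fun a _ => ?_
      rw [map_add, map_mul, map_pow, hα]; ring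
    rw [prod_congr rfl fun ξ _ => h1 ξ, prod_mul_distrib, prod_const, card_univ, ← hqk,
      prod_add_xi hqk α, mul_assoc, br_mul_RM q T hbr]

end RMprod

section dlog

variable {𝕂 : Type*} [Field 𝕂] (D : Derivation ℤ 𝕂 𝕂)

/-- logarithmic derivative -/
noncomputable def dlg (x : 𝕂) : 𝕂 := D x / x

lemma dlg_mul {x y : 𝕂} (hx : x ≠ 0) (hy : y ≠ 0) : dlg D (x * y) = dlg D x + dlg D y := by
  rw [dlg, dlg, dlg, Derivation.leibniz, smul_eq_mul, smul_eq_mul]
  field_simp
  ring

lemma dlg_one : dlg D 1 = 0 := by rw [dlg, Derivation.map_one_eq_zero, zero_div]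

lemma dlg_prod {ι : Type*} (s : Finset ι) (f : ι → 𝕂) (h : ∀ i ∈ s, f i ≠ 0) :
    dlg D (∏ i ∈ s, f i) = ∑ i ∈ s, dlg D (f i) := by
  classical
  induction s using Finset.induction_on with
  | empty => simp [dlg_one]
  | insert i s hi ih =>
    rw [prod_insert hi, sum_insert hi, dlg_mul D (h i (mem_insert_self i s))
      (prod_ne_zero_iff.2 fun j hj => h j (mem_insert_of_mem hj)),
      ih fun j hj => h j (mem_insert_of_mem hj)]

end dlog

end Pool.Agent.D0H54.GA
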