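import Pool.Agent.D0H54.GA.Hpoly
import Pool.Agent.D0H54.GA.Prod

set_option linter.unusedSectionVars false

namespace Pool.Agent.D0H54.GA

open Polynomial Finset WithZero Gk

section red

variable {k κ : Type*} [Field k] [Field κ] [Algebra k κ]
  (θ : κ) (w : k[X]) (hw : w.Monic) (hwd : 1 ≤ w.natDegree)
  (hsurj : Function.Surjective (aeval θ : k[X] → κ)) (hwdvd : ∀ a : k[X], w ∣ a ↔ aeval θ a = 0)

/-- reduced representative -/
noncomputable def rd (a : κ) : k[X] := Function.surjInv hsurj a %ₘ w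

include hw hwd in
lemma rd_degree (a : κ) : (rd θ w hsurj a).degree < w.degree := by
  rw [rd]; exact degree_modByMonic_lt _ hw

include hwdvd in
lemma rd_aeval (a : κ) : aeval θ (rd θ w hsurj a) = a := by
  have h1 := modByMonic_add_div (Function.surjInv hsurj a) w
  have h2 := congrArg (aeval θ) h1
  rw [map_add, map_mul, (hwdvd w).1 dvd_rfl, zero_mul, add_zero, Function.surjInv_eq hsurj a] at h2
  exact h2

include hw hwdvd in
lemma rd_unique' {f g : k[X]} (hf : f.degree < w.degree) (hg : g.degree < w.degree)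
    (h : aeval θ f = aeval θ g) : f = g := by
  rw [← sub_eq_zero]
  have h1 : w ∣ f - g := by rw [hwdvd, map_sub, h, sub_self]
  by_contra hne
  have h2 := degree_le_of_dvd h1 hne
  have h3 := lt_of_le_of_lt (degree_sub_le f g) (max_lt hf hg)
  exact absurd h2 (not_le.2 h3)

include hw hwd hwdvd in
lemma rd_unique {f : k[X]} (hf : f.degree < w.degree) : rd θ w hsurj (aeval θ f) = f :=
  rd_unique' θ w hw hwdvd (rd_degree θ w hw hwd hsurj _) hf (rd_aeval θ w hsurj hwdvd _)

include hw hwd hwdvd in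
lemma rd_add (a b : κ) : rd θ w hsurj (a + b) = rd θ w hsurj a + rd θ w hsurj b := by
  refine rd_unique' θ w hw hwdvd (rd_degree θ w hw hwd hsurj _)
    (lt_of_le_of_lt (degree_add_le _ _) (max_lt (rd_degree θ w hw hwd hsurj _) (rd_degree θ w hw hwd hsurj _))) ?_
  rw [map_add, rd_aeval θ w hsurj hwdvd, rd_aeval θ w hsurj hwdvd, rd_aeval θ w hsurj hwdvd]

include hw hwd hwdvd in
lemma rd_smul (c : k) (a : κ) : rd θ w hsurj (algebraMap k κ c * a) = C c * rd θ w hsurj a := by
  refine rd_unique' θ w hw hwdvd (rd_degree θ w hw hwd hsurj _) ?_ ?_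
  · refine lt_of_le_of_lt (degree_mul_le _ _) ?_
    calc (C c).degree + (rd θ w hsurj a).degree ≤ 0 + (rd θ w hsurj a).degree := by
          gcongr; exact degree_C_le
      _ < w.degree := by rw [zero_add]; exact rd_degree θ w hw hwd hsurj _
  · rw [map_mul, aeval_C, rd_aeval θ w hsurj hwdvd, rd_aeval θ w hsurj hwdvd]

include hw hwd hwdvd in
lemma rd_th (a : κ) : ∃ c : k, rd θ w hsurj (θ * a) = X * rd θ w hsurj a - C c * w := by
  refine ⟨(rd θ w hsurj a).coeff (w.natDegree - 1), ?_⟩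
  refine rd_unique' θ w hw hwdvd (rd_degree θ w hw hwd hsurj _) ?_ ?_
  · have h0 := rd_degree θ w hw hwd hsurj a
    rw [degree_eq_natDegree hw.ne_zero] at h0 ⊢
    rw [degree_lt_iff_coeff_zero] at h0 ⊢
    intro m hm
    obtain ⟨m', rfl⟩ : ∃ m', m = m' + 1 := ⟨m - 1, by omega⟩
    rw [coeff_sub, coeff_X_mul, coeff_C_mul]
    rcases Nat.lt_or_ge m' w.natDegree with h | h
    · have h1 : m' = w.natDegree - 1 := by omega
      have h2 : m' + 1 = w.natDegree := by omega
      rw [h2, hw.coeff_natDegree, h1, mul_one, sub_self]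
    · rw [h0 m' h, coeff_eq_zero_of_natDegree_lt (p := w) (n := m' + 1) (by omega), mul_zero, sub_zero]
  · rw [map_sub, map_mul, map_mul, (hwdvd w).1 dvd_rfl, mul_zero, sub_zero, aeval_X,
      rd_aeval θ w hsurj hwdvd, rd_aeval θ w hsurj hwdvd]

end red

section ratfunc

variable (Om : Type*) [Field Om]

open Classical in
/-- the valuation at infinity -/
noncomputable def vi : Valuation (RatFunc Om) ℤᵐ⁰ := RatFunc.inftyValuation Om

variable {Om}

lemma vi_poly {f : Om[X]} (hf : f ≠ 0) :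
    vi Om (algebraMap Om[X] (RatFunc Om) f) = exp (f.natDegree : ℤ) := by
  classical
  exact RatFunc.inftyValuation.polynomial Om hf

lemma vi_poly_le (f : Om[X]) {n : ℕ} (hf : f.natDegree ≤ n) :
    vi Om (algebraMap Om[X] (RatFunc Om) f) ≤ exp (n : ℤ) := by
  by_cases h : f = 0
  · subst h; simp
  · rw [vi_poly h, exp_le_exp]; exact_mod_cast hf

lemma vi_X : vi Om (algebraMap Om[X] (RatFunc Om) X) = exp 1 := by
  rw [vi_poly X_ne_zero, natDegree_X]; rfl

lemma vi_C_le (c : Om) : vi Om (algebraMap Om[X] (RatFunc Om) (C c)) ≤ 1 := by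
  have := vi_poly_le (C c) (n := 0) (by simp)
  simpa using this

/-- derivations over `ℤ` -/
abbrev DerZ (K : Type*) [Field K] := Derivation ℤ K K

lemma toZ {R K : Type*} [CommRing R] [Field K] [Algebra R K] (D : Derivation R K K) :
    ∃ D' : DerZ K, ∀ x, D' x = D x :=
  ⟨Derivation.mk' (D.toLinearMap.toAddMonoidHom.toIntLinearMap) (fun a b => D.leibniz a b), fun _ => rfl⟩

lemma D_div {K : Type*} [Field K] (D : DerZ K) {A B : K} (hB : B ≠ 0) :
    D (A / B) = (D A * B - A * D B) / B ^ 2 := by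
  have h2 : A = A / B * B := by field_simp
  have h3 : D A = A / B * D B + B * D (A / B) := by
    conv_lhs => rw [h2]
    rw [Derivation.leibniz, smul_eq_mul, smul_eq_mul]
  have h4 : D (A / B) = (D A - A / B * D B) / B := by
    rw [h3]; field_simp; ring
  rw [h4]
  field_simp

/-- the derivation `d/dT` -/
lemma exists_dT (Om : Type*) [Field Om] : ∃ D : DerZ (RatFunc Om),
    ∀ f : Om[X], D (algebraMap Om[X] (RatFunc Om) f) = algebraMap Om[X] (RatFunc Om) (derivative f) := by
  obtain ⟨D, hD⟩ := Gk.exists_derivation_ratfunc Om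
  obtain ⟨D', hD'⟩ := toZ D
  exact ⟨D', fun f => by rw [hD', hD]⟩

lemma vi_D (D : DerZ (RatFunc Om))
    (hD : ∀ f : Om[X], D (algebraMap Om[X] (RatFunc Om) f) = algebraMap Om[X] (RatFunc Om) (derivative f))
    (x : RatFunc Om) : vi Om (D x) ≤ vi Om x := by
  obtain ⟨f, g, hg, rfl⟩ := IsFractionRing.div_surjective (A := Om[X]) x
  have hg0 : g ≠ 0 := nonZeroDivisors.ne_zero hg
  have hg1 : algebraMap Om[X] (RatFunc Om) g ≠ 0 := by simpa using hg0
  have hpoly : ∀ f : Om[X], vi Om (algebraMap Om[X] (RatFunc Om) (derivative f)) ≤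
      vi Om (algebraMap Om[X] (RatFunc Om) f) := by
    intro f
    by_cases h : f = 0
    · subst h; simp
    · rw [vi_poly h]
      exact vi_poly_le _ ((natDegree_derivative_le f).trans (Nat.sub_le _ _))
  set A := algebraMap Om[X] (RatFunc Om) f with hA
  set B := algebraMap Om[X] (RatFunc Om) g with hB
  have h1 : D (A / B) = (D A * B - A * D B) / B ^ 2 := D_div D hg1
  have hv : vi Om B ≠ 0 := (vi Om).ne_zero_iff.2 hg1
  rw [h1, map_div₀, map_div₀, map_pow]
  have h4 : vi Om (D A * B - A * D B) ≤ vi Om A * vi Om B := by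
    refine ((vi Om).map_sub _ _).trans (max_le ?_ ?_)
    · rw [map_mul, hA, hD]; exact mul_le_mul' (hpoly f) le_rfl
    · rw [map_mul, hB, hD]; exact mul_le_mul' le_rfl (hpoly g)
  calc vi Om (D A * B - A * D B) / vi Om B ^ 2 ≤ (vi Om A * vi Om B) / vi Om B ^ 2 := by
        rw [div_eq_mul_inv, div_eq_mul_inv]; exact mul_le_mul' h4 le_rfl
    _ = vi Om A / vi Om B := by
        field_simp

end ratfunc

section zd

variable {k κ Om : Type*} [Field k] [Fintype k] [Field κ] [Field Om] [Algebra k κ] [Algebra k Om]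
  (θ : κ) (w : k[X]) (hw : w.Monic) (hwd : 1 ≤ w.natDegree)
  (hsurj : Function.Surjective (aeval θ : k[X] → κ)) (hwdvd : ∀ a : k[X], w ∣ a ↔ aeval θ a = 0)

/-- the embedding of `k[X]` -/
noncomputable def aO (k Om : Type*) [Field k] [Field Om] [Algebra k Om] : k[X] →+* RatFunc Om :=
  (algebraMap Om[X] (RatFunc Om)).comp (mapRingHom (algebraMap k Om))

lemma aO_apply (f : k[X]) : aO k Om f = algebraMap Om[X] (RatFunc Om) (f.map (algebraMap k Om)) := rfl

lemma aO_ne {f : k[X]} (hf : f ≠ 0) : aO k Om f ≠ 0 := by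
  rw [aO_apply]
  simpa using hf

lemma vi_aO {f : k[X]} (hf : f ≠ 0) : vi Om (aO k Om f) = exp (f.natDegree : ℤ) := by
  rw [aO_apply, vi_poly (by simpa using hf), natDegree_map]

variable (D : DerZ (RatFunc Om))
    (hD : ∀ f : Om[X], D (algebraMap Om[X] (RatFunc Om) f) = algebraMap Om[X] (RatFunc Om) (derivative f))

include hwd hw hwdvd hD in
lemma exists_ZD : ∃ Z : ZD k κ (RatFunc Om) (vi Om) (Fintype.card k) (algebraMap Om[X] (RatFunc Om) X) θ,
    Z.α = aO k Om ∧ Z.D = D ∧ ∀ a, Z.z a = aO k Om (rd θ w hsurj a) / aO k Om w := by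
  have hw1 : aO k Om w ≠ 0 := aO_ne hw.ne_zero
  refine ⟨{
    α := aO k Om
    hα := by rw [aO_apply, Polynomial.map_X]
    hαC := fun c => by rw [← map_pow, ← C_pow, FiniteField.pow_card]
    z := fun a => aO k Om (rd θ w hsurj a) / aO k Om w
    zadd := fun a b => by rw [rd_add θ w hw hwd hsurj hwdvd, map_add, add_div]
    zsmul := fun c a => by rw [rd_smul θ w hw hwd hsurj hwdvd, map_mul, mul_div_assoc]
    zth := ?_
    zv := ?_
    zne := ?_
    hT := vi_X
    D := D
    hD := by rw [hD, derivative_X, map_one]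
    hDv := vi_D D hD
    hDC := fun c => by rw [aO_apply, Polynomial.map_C, hD, derivative_C, map_zero] }, rfl, rfl, fun _ => rfl⟩
  · intro a
    obtain ⟨c, hc⟩ := rd_th θ w hw hwd hsurj hwdvd a
    refine ⟨aO k Om (C c), by rw [← map_pow, ← C_pow, FiniteField.pow_card], ?_⟩
    rw [hc, map_sub, map_mul, map_mul, sub_div, mul_div_assoc, mul_div_assoc, div_self hw1, mul_one,
      aO_apply (Om := Om) X, Polynomial.map_X]
  · intro a
    have h2 : vi Om (aO k Om w) ≠ 0 := (vi Om).ne_zero_iff.2 hw1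
    rw [map_div₀, div_lt_one₀ (zero_lt_iff.2 h2)]
    by_cases h : rd θ w hsurj a = 0
    · rw [h, map_zero, map_zero]; exact zero_lt_iff.2 h2
    · rw [vi_aO h, vi_aO hw.ne_zero, exp_lt_exp]
      have := natDegree_lt_natDegree h (rd_degree θ w hw hwd hsurj a)
      exact_mod_cast this
  · intro a ha
    refine div_ne_zero (aO_ne ?_) hw1
    intro h
    have := rd_aeval θ w hsurj hwdvd a
    rw [h, map_zero] at this
    exact ha this.symm

end zd

end Pool.Agent.D0H54.GA
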