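import Pool.Agent.D0H54.GA.Sum
import Pool.Agent.D0H54.GB.Main

set_option linter.unusedSectionVars false

namespace Pool.Agent.D0H54.GA

open Polynomial Finset WithZero Gk

section expansion

variable {Om : Type*} [Field Om] (D : DerZ (RatFunc Om))
    (hD : ∀ f : Om[X], D (algebraMap Om[X] (RatFunc Om) f) = algebraMap Om[X] (RatFunc Om) (derivative f))

/-- shorthand -/
noncomputable def io' (Om : Type*) [Field Om] : Om[X] →+* RatFunc Om := algebraMap Om[X] (RatFunc Om)

lemma io'_ne {f : Om[X]} (hf : f ≠ 0) : io' Om f ≠ 0 := by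
  rw [io']; simpa using hf

include hD in
lemma dlg_multiset (s : Multiset Om) :
    dlg D (io' Om (s.map (fun z => X - C z)).prod) = (s.map (fun z => (io' Om (X - C z))⁻¹)).sum := by
  induction s using Multiset.induction_on with
  | empty => rw [Multiset.map_zero, Multiset.prod_zero, map_one, dlg_one, Multiset.map_zero, Multiset.sum_zero]
  | cons a s ih =>
    rw [Multiset.map_cons, Multiset.prod_cons, Multiset.map_cons, Multiset.sum_cons, map_mul, dlg_mul D, ih]
    · congr 1
      rw [dlg, io', hD, derivative_sub, derivative_X, derivative_C, sub_zero, map_one, one_div]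
    · exact io'_ne (X_sub_C_ne_zero a)
    · refine io'_ne ?_
      refine Multiset.prod_ne_zero ?_
      intro h
      obtain ⟨z, _, hz⟩ := Multiset.mem_map.1 h
      exact X_sub_C_ne_zero z hz

/-- partial expansion of `1/(T - z)` -/
noncomputable def px (n : ℕ) (z : Om) : RatFunc Om :=
  ∑ m ∈ range n, io' Om (C (z ^ m)) * (io' Om X)⁻¹ ^ (m + 1)

lemma px_eq (n : ℕ) (z : Om) :
    (io' Om (X - C z))⁻¹ - px n z = io' Om (C (z ^ n)) * (io' Om X)⁻¹ ^ n * (io' Om (X - C z))⁻¹ := by
  have h0 : io' Om (X - C z) ≠ 0 := io'_ne (X_sub_C_ne_zero z)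
  have hX : io' Om X ≠ 0 := io'_ne X_ne_zero
  induction n with
  | zero => simp [px]
  | succ n ih =>
    rw [px, sum_range_succ, ← px, ← sub_sub, ih]
    have h1 : io' Om X = io' Om (X - C z) + io' Om (C z) := by rw [← map_add, sub_add_cancel]
    have h2 : io' Om X * (io' Om X)⁻¹ = 1 := mul_inv_cancel₀ hX
    have h3 : io' Om (X - C z) * (io' Om (X - C z))⁻¹ = 1 := mul_inv_cancel₀ h0
    set A := io' Om (C (z ^ n)) with hA
    have h4 : io' Om (C (z ^ (n + 1))) = A * io' Om (C z) := by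
      rw [pow_succ, C_mul, map_mul]
    rw [h4]
    set B := (io' Om X)⁻¹ with hB
    set E := (io' Om (X - C z))⁻¹ with hE
    have h5 : io' Om (C z) = io' Om X - io' Om (X - C z) := by rw [h1]; ring
    rw [h5]
    linear_combination (-(A * B ^ n * E)) * h2 + (A * B ^ (n + 1)) * h3

lemma vi_px (n : ℕ) (z : Om) : vi Om ((io' Om (X - C z))⁻¹ - px n z) ≤ exp (-(n : ℤ) - 1) := by
  have h1 : vi Om (io' Om (X - C z))⁻¹ = exp (-1) := by
    rw [map_inv₀, io', vi_poly (X_sub_C_ne_zero z), natDegree_X_sub_C, exp_neg]; rfl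
  have h2 : vi Om ((io' Om X)⁻¹ ^ n) = exp (n • (-1 : ℤ)) := by
    have h3 : vi Om (io' Om X) = exp 1 := vi_X
    rw [map_pow, map_inv₀, h3, ← exp_neg, ← exp_nsmul]
  rw [px_eq, map_mul, map_mul, h1, h2]
  calc vi Om (io' Om (C (z ^ n))) * exp (n • (-1 : ℤ)) * exp (-1) ≤ 1 * exp (n • (-1 : ℤ)) * exp (-1) :=
        mul_le_mul' (mul_le_mul' (vi_C_le _) le_rfl) le_rfl
    _ = exp (-(n : ℤ) - 1) := by
        rw [one_mul, ← exp_add]
        congr 1
        simp
        ring

lemma vi_multiset (n : ℕ) (s : Multiset Om) :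
    vi Om ((s.map (fun z => (io' Om (X - C z))⁻¹)).sum - (s.map (fun z => px n z)).sum) ≤
      exp (-(n : ℤ) - 1) := by
  induction s using Multiset.induction_on with
  | empty => simp
  | cons a s ih =>
    rw [Multiset.map_cons, Multiset.sum_cons, Multiset.map_cons, Multiset.sum_cons, add_sub_add_comm]
    exact ((vi Om).map_add _ _).trans (max_le (vi_px n a) ih)

lemma px_multiset (n : ℕ) (s : Multiset Om) : (s.map (fun z => px n z)).sum =
    ∑ m ∈ range n, io' Om (C ((s.map (fun z => z ^ m)).sum)) * (io' Om X)⁻¹ ^ (m + 1) := by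
  induction s using Multiset.induction_on with
  | empty => simp
  | cons a s ih =>
    rw [Multiset.map_cons, Multiset.sum_cons, ih, px, ← sum_add_distrib]
    refine sum_congr rfl fun m _ => ?_
    rw [Multiset.map_cons, Multiset.sum_cons, C_add, map_add, add_mul]

/-- a short Laurent polynomial which is small vanishes -/
lemma coeffs_zero (n : ℕ) (s : ℕ → Om)
    (h : vi Om (∑ m ∈ range n, io' Om (C (s m)) * (io' Om X)⁻¹ ^ (m + 1)) ≤ exp (-(n : ℤ) - 1)) :
    ∀ m < n, s m = 0 := by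
  set g : Om[X] := ∑ m ∈ range n, C (s m) * X ^ (n - 1 - m) with hg
  have hX : io' Om X ≠ 0 := io'_ne X_ne_zero
  have h1 : io' Om g = (∑ m ∈ range n, io' Om (C (s m)) * (io' Om X)⁻¹ ^ (m + 1)) * io' Om X ^ n := by
    rw [hg, map_sum, sum_mul]
    refine sum_congr rfl fun m hm => ?_
    have hm' := mem_range.1 hm
    rw [map_mul, map_pow, mul_assoc, inv_pow]
    congr 1
    have h2 : io' Om X ^ n = io' Om X ^ (m + 1) * io' Om X ^ (n - 1 - m) := by
      rw [← pow_add]; congr 1; omega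
    rw [h2, ← mul_assoc, inv_mul_cancel₀ (pow_ne_zero _ hX), one_mul]
  have h2 : vi Om (io' Om g) ≤ exp (-1) := by
    rw [h1, map_mul, map_pow]
    have h3 : vi Om (io' Om X) = exp 1 := vi_X
    rw [h3, ← exp_nsmul]
    calc _ ≤ exp (-(n : ℤ) - 1) * exp (n • (1 : ℤ)) := mul_le_mul' h le_rfl
      _ = exp (-1) := by
        rw [← exp_add]; congr 1; simp; ring
  have h3 : g = 0 := by
    by_contra hne
    rw [io', vi_poly hne, exp_le_exp] at h2
    omega
  intro m hm
  have h4 := congrArg (fun f => f.coeff (n - 1 - m)) h3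
  simp only [hg, finsetSum_coeff, coeff_zero, coeff_C_mul_X_pow] at h4
  rw [sum_eq_single m] at h4
  · rw [if_pos rfl] at h4; exact h4
  · intro b hb hbm
    have := mem_range.1 hb
    rw [if_neg]; omega
  · intro h; exact absurd (mem_range.2 hm) h

end expansion

section final

variable {k κ Om : Type*} [Field k] [Fintype k] [Field κ] [Fintype κ] [Field Om] [IsAlgClosed Om]
  [Algebra k κ] [Algebra k Om] [Algebra κ Om] [IsScalarTower k κ Om]
  (θ : κ) (w : k[X]) (hw : w.Monic) (hwd : 1 ≤ w.natDegree)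
  (hsurj : Function.Surjective (aeval θ : k[X] → κ)) (hwdvd : ∀ a : k[X], w ∣ a ↔ aeval θ a = 0)
  {p r : ℕ} [hp : Fact p.Prime] [CharP k p] (hqp : Fintype.card k = p ^ r)

include hw hwd hwdvd hqp in
theorem pieceA (l : ℕ) (hl0 : 0 < l) (hl : l < Fintype.card κ - 1) (hql : (Fintype.card k - 1) ∣ l)
    [Fintype κˣ] [DecidableEq κˣ]
    (hdvd : (rho (Fintype.card k) w).map (mp k κ) ∣ Ht (Fintype.card k) l w (rd θ w hsurj)) (n : ℕ) :
    ∃ J0, ∀ J ≥ J0, ∀ m < n, ∑ j ∈ range J, ∑ a : Fin j → k,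
      algebraMap κ Om ((aeval θ (GB.mon j a)) ^ (Fintype.card κ - 1 - l)) *
        GB.psum Om m (GB.mon j a) = 0 := by
  have hq : 2 ≤ Fintype.card k := Fintype.one_lt_card
  obtain ⟨D, hD⟩ := exists_dT Om
  obtain ⟨Z, hZα, hZD, hZz⟩ := exists_ZD (Om := Om) θ w hw hwd hsurj hwdvd D hD
  have : CharP Om p := charP_of_injective_ringHom (algebraMap k Om).injective p
  have : CharP (RatFunc Om) p :=
    charP_of_injective_ringHom (f := (algebraMap Om[X] (RatFunc Om)).comp C)
      ((IsFractionRing.injective Om[X] (RatFunc Om)).comp C_injective) p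
  set β : κ[X] →+* RatFunc Om := (io' Om).comp (mapRingHom (algebraMap κ Om)) with hβ
  have hβ1 : ∀ a, β (mp k κ a) = Z.α a := by
    intro a
    rw [hZα, hβ, RingHom.comp_apply, mp, coe_mapRingHom, coe_mapRingHom, Polynomial.map_map, aO_apply,
      ← IsScalarTower.algebraMap_eq]
    rfl
  have hα : ∀ f, Z.α f = 0 → f = 0 := by
    intro f hf
    by_contra hne
    rw [hZα] at hf
    exact aO_ne hne hf
  obtain ⟨J0, hJ0⟩ := null_monic Z hqp hq rfl β hβ1 w hw hwd hsurj hwdvd (fun a => by rw [hZα]; exact hZz a)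
    hα l hl0 hl hql hdvd (-(n : ℤ) - 1)
  refine ⟨J0, fun J hJ => ?_⟩
  have h1 := hJ0 J hJ
  refine coeffs_zero n (fun m => ∑ j ∈ range J, ∑ a : Fin j → k,
      algebraMap κ Om ((aeval θ (GB.mon j a)) ^ (Fintype.card κ - 1 - l)) *
        GB.psum Om m (GB.mon j a)) ?_
  set S := ∑ j ∈ range J, ∑ a : Fin j → k, Gf Z β l (GB.mon j a) with hS
  set P := ∑ m ∈ range n, io' Om (C (∑ j ∈ range J, ∑ a : Fin j → k,
      algebraMap κ Om ((aeval θ (GB.mon j a)) ^ (Fintype.card κ - 1 - l)) *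
        GB.psum Om m (GB.mon j a))) * (io' Om X)⁻¹ ^ (m + 1) with hP
  have h2 : P = ∑ j ∈ range J, ∑ a : Fin j → k,
      io' Om (C (algebraMap κ Om ((aeval θ (GB.mon j a)) ^ (Fintype.card κ - 1 - l)))) *
      (((GB.mon j a).map (algebraMap k Om)).roots.map (fun z => px n z)).sum := by
    rw [hP]
    simp_rw [px_multiset, mul_sum, map_sum, sum_mul]
    rw [sum_comm]
    refine sum_congr rfl fun j _ => ?_
    rw [sum_comm]
    refine sum_congr rfl fun a _ => ?_
    refine sum_congr rfl fun m _ => ?_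
    rw [C_mul, map_mul, GB.psum]; ring
  have h3 : vi Om (S - P) ≤ exp (-(n : ℤ) - 1) := by
    rw [hS, h2, ← sum_sub_distrib]
    refine (vi Om).map_sum_le fun j _ => ?_
    rw [← sum_sub_distrib]
    refine (vi Om).map_sum_le fun a _ => ?_
    have h4 : Gf Z β l (GB.mon j a) =
        io' Om (C (algebraMap κ Om ((aeval θ (GB.mon j a)) ^ (Fintype.card κ - 1 - l)))) *
        (((GB.mon j a).map (algebraMap k Om)).roots.map (fun z => (io' Om (X - C z))⁻¹)).sum := by
      rw [Gf, hβ, RingHom.comp_apply, coe_mapRingHom, map_C, hZα, hZD]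
      congr 1
      rw [← dlg_multiset D hD]
      congr 1
      rw [aO_apply]
      congr 1
      exact (IsAlgClosed.splits _).eq_prod_roots_of_monic ((GB.mon_monic a).map _)
    rw [h4, ← mul_sub, map_mul]
    calc _ ≤ 1 * exp (-(n : ℤ) - 1) := mul_le_mul' (vi_C_le _) (vi_multiset n _)
      _ = _ := one_mul _
  have h4 : P = S - (S - P) := by ring
  rw [h4]
  exact ((vi Om).map_sub _ _).trans (max_le h1 h3)

end final

end Pool.Agent.D0H54.GA
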