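import Mathlib

set_option linter.unusedSectionVars false

namespace Pool.Agent.D0H54.GA

open WithZero

variable {𝕂 : Type*} [Field 𝕂] (v : Valuation 𝕂 ℤᵐ⁰)

/-- bounded sequences -/
def Bd : Subalgebra 𝕂 (ℕ → 𝕂) where
  carrier := {x | ∃ c : ℤ, ∀ M, v (x M) ≤ exp c}
  mul_mem' := by
    rintro x y ⟨c, hc⟩ ⟨c', hc'⟩
    refine ⟨c + c', fun M => ?_⟩
    rw [Pi.mul_apply, map_mul, exp_add]
    exact mul_le_mul' (hc M) (hc' M)
  add_mem' := by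
    rintro x y ⟨c, hc⟩ ⟨c', hc'⟩
    refine ⟨max c c', fun M => ?_⟩
    refine (v.map_add _ _).trans (max_le ?_ ?_)
    · exact (hc M).trans (exp_le_exp.2 (le_max_left _ _))
    · exact (hc' M).trans (exp_le_exp.2 (le_max_right _ _))
  algebraMap_mem' := by
    intro r
    by_cases hr : r = 0
    · subst hr
      exact ⟨0, fun M => by simp⟩
    · have h1 : v r ≠ 0 := (v.ne_zero_iff).2 hr
      refine ⟨log (v r), fun M => ?_⟩
      rw [exp_log h1]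
      exact le_rfl

/-- null sequences -/
def Nl (x : ℕ → 𝕂) : Prop := ∀ c : ℤ, ∃ M0, ∀ M ≥ M0, v (x M) ≤ exp c

variable {v}

lemma Nl.add {x y : ℕ → 𝕂} (hx : Nl v x) (hy : Nl v y) : Nl v (x + y) := by
  intro c
  obtain ⟨M0, h0⟩ := hx c
  obtain ⟨M1, h1⟩ := hy c
  refine ⟨max M0 M1, fun M hM => ?_⟩
  exact (v.map_add _ _).trans (max_le (h0 M (le_of_max_le_left hM)) (h1 M (le_of_max_le_right hM)))

lemma Nl.mul {x y : ℕ → 𝕂} (hx : x ∈ Bd v) (hy : Nl v y) : Nl v (x * y) := by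
  obtain ⟨c, hc⟩ := hx
  intro c'
  obtain ⟨M0, h0⟩ := hy (c' - c)
  refine ⟨M0, fun M hM => ?_⟩
  rw [Pi.mul_apply, map_mul]
  calc v (x M) * v (y M) ≤ exp c * exp (c' - c) := mul_le_mul' (hc M) (h0 M hM)
    _ = exp c' := by rw [← exp_add]; congr 1; ring

lemma Nl.zero : Nl v (0 : ℕ → 𝕂) := fun c => ⟨0, fun M _ => by simp⟩

variable (v)

/-- the ideal of null sequences -/
def NI : Ideal (Bd v) where
  carrier := {x | Nl v (x : ℕ → 𝕂)}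
  add_mem' := fun hx hy => Nl.add hx hy
  zero_mem' := Nl.zero
  smul_mem' := fun c x hx => Nl.mul c.2 hx

/-- bounded sequences modulo null sequences -/
abbrev RI := (Bd v) ⧸ (NI v)

/-- class of a bounded sequence -/
def cl (x : ℕ → 𝕂) (hx : x ∈ Bd v) : RI v := Ideal.Quotient.mk (NI v) ⟨x, hx⟩

variable {v}

lemma cl_eq_iff {x y : ℕ → 𝕂} (hx : x ∈ Bd v) (hy : y ∈ Bd v) :
    cl v x hx = cl v y hy ↔ Nl v (x - y) := by
  rw [cl, cl, Ideal.Quotient.eq]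
  rfl

lemma cl_eq_zero_iff {x : ℕ → 𝕂} (hx : x ∈ Bd v) : cl v x hx = 0 ↔ Nl v x := by
  rw [cl, Ideal.Quotient.eq_zero_iff_mem]
  rfl

lemma cl_add {x y : ℕ → 𝕂} (hx : x ∈ Bd v) (hy : y ∈ Bd v) :
    cl v (x + y) ((Bd v).add_mem hx hy) = cl v x hx + cl v y hy := rfl

lemma cl_mul {x y : ℕ → 𝕂} (hx : x ∈ Bd v) (hy : y ∈ Bd v) :
    cl v (x * y) ((Bd v).mul_mem hx hy) = cl v x hx * cl v y hy := rfl

lemma cl_pow {x : ℕ → 𝕂} (hx : x ∈ Bd v) (n : ℕ) :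
    cl v (x ^ n) ((Bd v).pow_mem hx n) = cl v x hx ^ n := rfl

lemma const_mem (r : 𝕂) : (fun _ => r : ℕ → 𝕂) ∈ Bd v := (Bd v).algebraMap_mem r

lemma algebraMap_eq (r : 𝕂) : algebraMap 𝕂 (RI v) r = cl v (fun _ => r) (const_mem r) := rfl

end Pool.Agent.D0H54.GA
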