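import Pool.Agent.D0H54.GA.Rho
import Pool.Agent.D0H54.GA.Seq
import Pool.Agent.D0H54.Gk.Van

set_option linter.unusedSectionVars false

namespace Pool.Agent.D0H54.GA

open Polynomial Finset WithZero

section RM

variable {𝕂 : Type*} [Field 𝕂] (q : ℕ) (T : 𝕂)

def br (M : ℕ) : 𝕂 := T ^ (q ^ M) - T

/-- Carlitz's functions `E_M / D_M` -/
noncomputable def RM : ℕ → 𝕂 → 𝕂
  | 0, z => z
  | M + 1, z => (RM M z ^ q - RM M z) / br q T (M + 1)

variable {p r : ℕ} [hp : Fact p.Prime] [CharP 𝕂 p] (hqp : q = p ^ r) (hq : 2 ≤ q)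
  (hbr : ∀ M, br q T (M + 1) ≠ 0)

lemma RM_zero_left (z : 𝕂) : RM q T 0 z = z := rfl

include hqp in
lemma add_pow_q (x y : 𝕂) : (x + y) ^ q = x ^ q + y ^ q := by
  rw [hqp, add_pow_char_pow]

include hqp in
lemma sub_pow_q (x y : 𝕂) : (x - y) ^ q = x ^ q - y ^ q := by
  rw [hqp, sub_pow_char_pow]

include hqp in
lemma RM_add (M : ℕ) (x y : 𝕂) : RM q T M (x + y) = RM q T M x + RM q T M y := by
  induction M with
  | zero => rfl
  | succ M ih => rw [RM, RM, RM, ih, add_pow_q q hqp]; ring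

include hqp in
lemma RM_sub (M : ℕ) (x y : 𝕂) : RM q T M (x - y) = RM q T M x - RM q T M y := by
  induction M with
  | zero => rfl
  | succ M ih => rw [RM, RM, RM, ih, sub_pow_q q hqp]; ring

lemma RM_smul (M : ℕ) (c x : 𝕂) (hc : c ^ q = c) : RM q T M (c * x) = c * RM q T M x := by
  induction M with
  | zero => rfl
  | succ M ih => rw [RM, RM, ih, mul_pow, hc]; ring

include hbr in
lemma br_mul_RM (M : ℕ) (z : 𝕂) : br q T (M + 1) * RM q T (M + 1) z = RM q T M z ^ q - RM q T M z := by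
  rw [RM, mul_div_cancel₀ _ (hbr M)]

include hqp in
lemma br_pow (M : ℕ) : br q T M ^ q = T ^ (q ^ (M + 1)) - T ^ q := by
  rw [br, sub_pow_q q hqp, ← pow_mul, ← pow_succ]

include hqp hbr in
lemma RM_T (M : ℕ) (z : 𝕂) : RM q T (M + 1) (T * z) = T * RM q T (M + 1) z + RM q T M z ^ q := by
  induction M with
  | zero =>
    have h := hbr 0
    rw [RM, RM, RM, RM, mul_pow]
    rw [eq_comm, ← mul_div_assoc, div_add' _ _ _ h]
    congr 1
    simp only [RM_zero_left, br]; ring
  | succ M ih =>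
    have h := hbr (M + 1)
    have h2 := br_mul_RM q T hbr M z
    have h3 : RM q T M z ^ q ^ 2 - RM q T M z ^ q = br q T (M + 1) ^ q * RM q T (M + 1) z ^ q := by
      rw [← mul_pow, h2, sub_pow_q q hqp, ← pow_mul, pow_two]
    have h4 : (T * RM q T (M + 1) z + RM q T M z ^ q) ^ q =
        T ^ q * RM q T (M + 1) z ^ q + RM q T M z ^ q ^ 2 := by
      rw [add_pow_q q hqp, mul_pow, ← pow_mul, pow_two]
    rw [RM, ih, h4]
    conv_rhs => rw [RM]
    rw [eq_comm, ← mul_div_assoc, div_add' _ _ _ h]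
    congr 1
    have h5 := br_pow q T hqp (M + 1)
    rw [br] at *
    linear_combination (-1 : 𝕂) * h3 - (RM q T (M + 1) z) ^ q * h5

include hqp hbr hq in
lemma RM_Tpow (M : ℕ) : RM q T M (T ^ M) = 1 ∧ ∀ i < M, RM q T M (T ^ i) = 0 := by
  induction M with
  | zero => exact ⟨by simp [RM], fun i hi => by omega⟩
  | succ M ih =>
    obtain ⟨h1, h2⟩ := ih
    have h3 : ∀ i < M + 1, RM q T (M + 1) (T ^ i) = 0 := by
      intro i hi
      rw [RM]
      rcases Nat.lt_succ_iff_lt_or_eq.1 hi with h | h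
      · rw [h2 i h, zero_pow (by omega), sub_zero, zero_div]
      · rw [h, h1, one_pow, sub_self, zero_div]
    refine ⟨?_, h3⟩
    rw [pow_succ', RM_T q T hqp hbr, h3 M (by omega), h1]
    simp

include hqp hbr hq in
lemma RM_one (M : ℕ) : RM q T (M + 1) 1 = 0 := by
  have := (RM_Tpow q T hqp hq hbr (M + 1)).2 0 (by omega)
  simpa using this

end RM

section val

variable {𝕂 : Type*} [Field 𝕂] (v : Valuation 𝕂 ℤᵐ⁰) (q : ℕ) (T : 𝕂) (hT : v T = exp 1) (hq : 2 ≤ q)

include hT hq in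
lemma v_br (M : ℕ) : v (br q T (M + 1)) = exp ((q : ℤ) ^ (M + 1)) := by
  have h1 : v (T ^ (q ^ (M + 1))) = exp ((q : ℤ) ^ (M + 1)) := by
    rw [map_pow, hT, ← exp_nsmul]
    simp
  have h2 : v T < v (T ^ (q ^ (M + 1))) := by
    rw [h1, hT, exp_lt_exp]
    have : 1 < q ^ (M + 1) := Nat.one_lt_pow (by omega) (by omega)
    exact_mod_cast this
  rw [br, v.map_sub_eq_of_lt_left h2, h1]

include hT hq in
lemma br_ne (M : ℕ) : br q T (M + 1) ≠ 0 := by
  intro h
  have := v_br v q T hT hq M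
  rw [h, map_zero] at this
  exact exp_ne_zero this.symm

/-- exponent sum -/
def SS (q : ℕ) (M : ℕ) : ℤ := ∑ j ∈ range M, (q : ℤ) ^ (j + 1)

lemma SS_succ (M : ℕ) : SS q (M + 1) = SS q M + (q : ℤ) ^ (M + 1) := by
  rw [SS, sum_range_succ]; rfl

lemma SS_nonneg (M : ℕ) : 0 ≤ SS q M := sum_nonneg fun j _ => by positivity

lemma SS_eq (M : ℕ) : ((q : ℤ) - 1) * SS q M = (q : ℤ) ^ (M + 1) - q := by
  induction M with
  | zero => simp [SS]
  | succ M ih => rw [SS_succ, mul_add, ih]; ring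

lemma SS_ge (hq : 2 ≤ q) (M : ℕ) : (M : ℤ) ≤ SS q M := by
  induction M with
  | zero => simp [SS]
  | succ M ih =>
    rw [SS_succ]
    have : (1 : ℤ) ≤ (q : ℤ) ^ (M + 1) := one_le_pow₀ (by exact_mod_cast (by omega : 1 ≤ q))
    push_cast
    omega

include hT hq in
lemma v_RM (M : ℕ) (z : 𝕂) (hz : v z < 1) : v (RM q T M z) = v z * exp (-SS q M) := by
  by_cases hz0 : z = 0
  · have : RM q T M (0 : 𝕂) = 0 := by
      induction M with
      | zero => rfl
      | succ M ih => rw [RM, ih, zero_pow (by omega), sub_zero, zero_div]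
    rw [hz0, this]; simp
  induction M with
  | zero => simp [RM, SS]
  | succ M ih =>
    have h0 : v z ≠ 0 := v.ne_zero_iff.2 hz0
    have h1 : v (RM q T M z) < 1 := by
      rw [ih]
      calc v z * exp (-SS q M) ≤ v z * 1 := by
            refine mul_le_mul' le_rfl ?_
            rw [← exp_zero, exp_le_exp]
            have := SS_nonneg q M
            omega
        _ < 1 := by rw [mul_one]; exact hz
    have h2 : RM q T M z ≠ 0 := by
      intro h
      rw [h, map_zero] at ih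
      exact (mul_ne_zero h0 exp_ne_zero) ih.symm
    have h3 : v (RM q T M z ^ q) < v (RM q T M z) := by
      rw [map_pow]
      have h4 : v (RM q T M z) ≠ 0 := v.ne_zero_iff.2 h2
      have h5 : v (RM q T M z) ^ (q - 1) < 1 := pow_lt_one₀ zero_le h1 (by omega)
      have h6 : v (RM q T M z) ^ q = v (RM q T M z) ^ (q - 1) * v (RM q T M z) := by
        rw [← pow_succ, Nat.sub_add_cancel (by omega)]
      rw [h6]
      calc v (RM q T M z) ^ (q - 1) * v (RM q T M z) < 1 * v (RM q T M z) :=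
            mul_lt_mul_of_pos_right h5 (zero_lt_iff.2 h4)
        _ = _ := one_mul _
    rw [RM, map_div₀, v.map_sub_eq_of_lt_right h3, ih, v_br v q T hT hq, SS_succ, div_eq_mul_inv,
      ← exp_neg, mul_assoc, ← exp_add]
    congr 2
    ring

end val

end Pool.Agent.D0H54.GA
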