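import Mathlib

set_option linter.unusedSectionVars false

namespace Pool.Agent.D0H54.GA

open Polynomial Finset

section defs

variable {k : Type*} [Field k]

/-- `C_{T^i}(x) / x` as a polynomial in `x^{q-1}` -/
noncomputable def rhoT (k : Type*) [Field k] (q : ℕ) : ℕ → k[X][X]
  | 0 => 1
  | i + 1 => C X * rhoT k q i + X * rhoT k q i ^ q

/-- the same with the coefficients differentiated -/
noncomputable def drhoT (k : Type*) [Field k] (q : ℕ) : ℕ → k[X][X]
  | 0 => 0
  | i + 1 => rhoT k q i + C X * drhoT k q i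

noncomputable def rho (q : ℕ) (a : k[X]) : k[X][X] :=
  ∑ i ∈ range (a.natDegree + 1), C (C (a.coeff i)) * rhoT k q i

noncomputable def drho (q : ℕ) (a : k[X]) : k[X][X] :=
  ∑ i ∈ range (a.natDegree + 1), C (C (a.coeff i)) * drhoT k q i

/-- `(q^i - 1)/(q - 1)` -/
def gg (q : ℕ) : ℕ → ℕ
  | 0 => 0
  | i + 1 => q * gg q i + 1

lemma gg_eq (q : ℕ) (hq : 1 ≤ q) (i : ℕ) : (q - 1) * gg q i = q ^ i - 1 := by
  induction i with
  | zero => simp [gg]
  | succ i ih =>
    obtain ⟨m, rfl⟩ : ∃ m, q = m + 1 := ⟨q - 1, by omega⟩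
    simp only [Nat.add_sub_cancel] at ih ⊢
    rw [gg, pow_succ]
    have h1 : 1 ≤ (m + 1) ^ i := Nat.one_le_pow _ _ (by omega)
    have h2 : m * ((m + 1) * gg (m + 1) i + 1) = (m + 1) * (m * gg (m + 1) i) + m := by ring
    rw [h2, ih, mul_comm ((m + 1) ^ i)]
    zify [h1, Nat.mul_pos (Nat.succ_pos m) h1]
    ring

lemma gg_mono (q : ℕ) (hq : 2 ≤ q) {i j : ℕ} (h : i < j) : gg q i < gg q j := by
  have hstep : ∀ i, gg q i < gg q (i + 1) := by
    intro i
    rw [gg]
    have : gg q i ≤ q * gg q i := Nat.le_mul_of_pos_left _ (by omega)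
    omega
  exact strictMono_nat_of_lt_succ hstep h

lemma rhoT_monic (q : ℕ) (hq : 2 ≤ q) (i : ℕ) :
    (rhoT k q i).Monic ∧ (rhoT k q i).natDegree = gg q i := by
  induction i with
  | zero => exact ⟨monic_one, by simp [rhoT, gg]⟩
  | succ i ih =>
    obtain ⟨h1, h2⟩ := ih
    have h3 : (X * rhoT k q i ^ q).Monic := monic_X.mul (h1.pow q)
    have h4 : (X * rhoT k q i ^ q).natDegree = gg q (i + 1) := by
      rw [monic_X.natDegree_mul (h1.pow q), natDegree_X, h1.natDegree_pow, h2, gg]; ring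
    have h5 : (C X * rhoT k q i).natDegree < (X * rhoT k q i ^ q).natDegree := by
      refine lt_of_le_of_lt (natDegree_C_mul_le _ _) ?_
      rw [h4, h2]
      exact gg_mono q hq (Nat.lt_succ_self i)
    have h6 : (C X * rhoT k q i).degree < (X * rhoT k q i ^ q).degree :=
      degree_lt_degree h5
    refine ⟨?_, ?_⟩
    · rw [rhoT]; exact h3.add_of_right h6
    · rw [rhoT, natDegree_add_eq_right_of_degree_lt h6, h4]

lemma rho_monic (q : ℕ) (hq : 2 ≤ q) (w : k[X]) (hw : w.Monic) :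
    (rho q w).Monic ∧ (rho q w).natDegree = gg q w.natDegree := by
  obtain ⟨h1, h2⟩ := rhoT_monic (k := k) q hq w.natDegree
  have h3 : (∑ i ∈ range w.natDegree, C (C (w.coeff i)) * rhoT k q i).degree <
      (rhoT k q w.natDegree).degree := by
    refine lt_of_le_of_lt (degree_sum_le _ _) ?_
    rw [Finset.sup_lt_iff]
    · intro i hi
      refine lt_of_le_of_lt (degree_mul_le _ _) ?_
      have h4 := rhoT_monic (k := k) q hq i
      have h5 : (rhoT k q i).degree < (rhoT k q w.natDegree).degree := by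
        apply degree_lt_degree
        rw [h4.2, h2]
        exact gg_mono q hq (mem_range.1 hi)
      calc (C (C (w.coeff i))).degree + (rhoT k q i).degree ≤ 0 + (rhoT k q i).degree := by
            gcongr; exact degree_C_le
        _ = (rhoT k q i).degree := zero_add _
        _ < _ := h5
    · rw [bot_lt_iff_ne_bot, ne_eq, degree_eq_bot]
      exact h1.ne_zero
  have h4 : rho q w = ∑ i ∈ range w.natDegree, C (C (w.coeff i)) * rhoT k q i + rhoT k q w.natDegree := by
    rw [rho, sum_range_succ, hw.coeff_natDegree, C_1, C_1, one_mul]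
  refine ⟨?_, ?_⟩
  · rw [h4]; exact h1.add_of_right h3
  · rw [h4, natDegree_add_eq_right_of_degree_lt h3, h2]

end defs

section eval

variable {k : Type*} [Field k] {R : Type*} [CommRing R] (α : k[X] →+* R) (Δ : R) (q : ℕ)

lemma rhoT_eval (e : ℕ → R) (h0 : e 0 = 1) (h : ∀ i, e (i + 1) = α X * e i + Δ * e i ^ q) (i : ℕ) :
    (rhoT k q i).eval₂ α Δ = e i := by
  induction i with
  | zero => simp [rhoT, h0]
  | succ i ih =>
    rw [rhoT, eval₂_add, eval₂_mul, eval₂_mul, eval₂_C, eval₂_X, eval₂_pow, ih, h]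

lemma drhoT_eval (e y : ℕ → R) (h0 : e 0 = 1) (h : ∀ i, e (i + 1) = α X * e i + Δ * e i ^ q)
    (hy : ∀ i, y (i + 1) = e i + α X * y i) (i : ℕ) :
    y i = α (X ^ i) * y 0 + (drhoT k q i).eval₂ α Δ := by
  induction i with
  | zero => simp [drhoT]
  | succ i ih =>
    rw [hy, ih, drhoT, eval₂_add, eval₂_mul, eval₂_C, rhoT_eval α Δ q e h0 h, pow_succ, map_mul]
    ring

variable {κ : Type*} [CommRing κ] [Algebra k κ] (θ : κ)

lemma rho_eval (ε : κ → R) (hadd : ∀ a b, ε (a + b) = ε a + ε b)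
    (hsmul : ∀ (c : k) a, ε (algebraMap k κ c * a) = α (C c) * ε a)
    (h0 : ε 1 = 1) (h : ∀ a, ε (θ * a) = α X * ε a + Δ * ε a ^ q) (a : k[X]) :
    (rho q a).eval₂ α Δ = ε (aeval θ a) := by
  have h1 := rhoT_eval α Δ q (fun i => ε (θ ^ i)) (by simpa using h0) (fun i => by
    rw [pow_succ', h])
  have hz : ε 0 = 0 := by
    have := hadd 0 0
    rw [add_zero] at this
    simpa using this
  let εh : κ →+ R := { toFun := ε, map_zero' := hz, map_add' := hadd }
  have hs : ∀ (s : Finset ℕ) (f : ℕ → κ), ε (∑ i ∈ s, f i) = ∑ i ∈ s, ε (f i) := fun s f =>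
    map_sum εh f s
  rw [rho, eval₂_finsetSum, aeval_eq_sum_range, hs]
  refine sum_congr rfl fun i _ => ?_
  rw [eval₂_mul, eval₂_C, h1, Algebra.smul_def, hsmul]

lemma drho_eval (ε y : κ → R) (haddy : ∀ a b, y (a + b) = y a + y b)
    (hsmuly : ∀ (c : k) a, y (algebraMap k κ c * a) = α (C c) * y a)
    (h0 : ε 1 = 1) (h : ∀ a, ε (θ * a) = α X * ε a + Δ * ε a ^ q)
    (hy : ∀ a, y (θ * a) = ε a + α X * y a) (a : k[X]) :
    y (aeval θ a) = α a * y 1 + (drho q a).eval₂ α Δ := by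
  have h1 := drhoT_eval α Δ q (fun i => ε (θ ^ i)) (fun i => y (θ ^ i)) (by simpa using h0) (fun i => by
    rw [pow_succ', h]) (fun i => by
    rw [pow_succ', hy])
  have hz : y 0 = 0 := by
    have := haddy 0 0
    rw [add_zero] at this
    simpa using this
  let yh : κ →+ R := { toFun := y, map_zero' := hz, map_add' := haddy }
  have hs : ∀ (s : Finset ℕ) (f : ℕ → κ), y (∑ i ∈ s, f i) = ∑ i ∈ s, y (f i) := fun s f =>
    map_sum yh f s
  rw [drho, eval₂_finsetSum, aeval_eq_sum_range, hs]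
  have h2 : α a * y 1 = ∑ i ∈ range (a.natDegree + 1), α (C (a.coeff i) * X ^ i) * y 1 := by
    rw [← sum_mul, ← map_sum, ← as_sum_range_C_mul_X_pow]
  rw [h2, ← sum_add_distrib]
  refine sum_congr rfl fun i _ => ?_
  rw [eval₂_mul, eval₂_C, Algebra.smul_def, hsmuly]
  have h3 := h1 i
  beta_reduce at h3
  rw [pow_zero] at h3
  rw [h3, map_mul]
  ring

end eval

end Pool.Agent.D0H54.GA
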