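import Pool.Agent.D0H54.GA.InfD

set_option linter.unusedSectionVars false

namespace Pool.Agent.D0H54.GA

open Polynomial Finset WithZero Gk

section null

variable {k κ 𝕂 : Type*} [Field k] [Field κ] [Algebra k κ] [Fintype κ] [Fintype κˣ] [DecidableEq κˣ] [Field 𝕂]
    {v : Valuation 𝕂 ℤᵐ⁰}
    {q : ℕ} {T : 𝕂} {θ : κ} (Z : ZD k κ 𝕂 v q T θ)
    {p r : ℕ} [hp : Fact p.Prime] [CharP 𝕂 p] (hqp : q = p ^ r) (hq : 2 ≤ q)
    (β : κ[X] →+* 𝕂) (hβ : ∀ a, β (mp k κ a) = Z.α a)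
    (w : k[X]) (hw : aeval θ w = 0) (rr : κ → k[X]) (hrr : ∀ a, aeval θ (rr a) = a)

include hqp hβ hw hrr hq in
theorem null_seq (l : ℕ) (hdvd : (rho q w).map (mp k κ) ∣ Ht q l w rr) (hβw : β (mp k κ w) ≠ 0) :
    Nl v (fun M => ∑ a : κˣ, β (C ((a : κ)⁻¹ ^ l)) * dlg Z.D (Z.x (a : κ) M)) := by
  have h1 := sum_class_zero Z hqp hq β hβ w hw rr hrr l hdvd hβw
  set s : Bd v := ∑ a : κˣ, (⟨fun _ => β (C ((a : κ)⁻¹ ^ l)), const_mem _⟩ : Bd v) *
    ((⟨Z.yy (a : κ), Z.yy_mem hq a⟩ : Bd v) * (⟨Z.ei (a : κ), Z.ei_mem hq a.ne_zero⟩ : Bd v)) with hs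
  have h2 : Ideal.Quotient.mk (NI v) s = 0 := by
    rw [hs, map_sum, ← h1]
    refine sum_congr rfl fun a _ => ?_
    rw [map_mul, map_mul]
    rfl
  have h3 : Nl v (s : ℕ → 𝕂) := Ideal.Quotient.eq_zero_iff_mem.1 h2
  have h4 : (s : ℕ → 𝕂) = fun M => ∑ a : κˣ, β (C ((a : κ)⁻¹ ^ l)) * dlg Z.D (Z.x (a : κ) M) := by
    rw [hs]
    funext M
    rw [AddSubmonoidClass.coe_finsetSum, Finset.sum_apply]
    refine sum_congr rfl fun a _ => ?_
    change β (C ((a : κ)⁻¹ ^ l)) * (Z.yy (a : κ) M * Z.ei (a : κ) M) = _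
    congr 1
    rw [ZD.yy, ZD.ei, dlg]
    have h5 := Z.x_ne hq one_ne_zero M
    have h6 := Z.x_ne hq a.ne_zero M
    field_simp
  rw [← h4]
  exact h3

end null

section prodf

variable {k κ 𝕂 : Type*} [Field k] [Fintype k] [Field κ] [Algebra k κ] [Fintype κ] [Fintype κˣ] [DecidableEq κˣ]
    [Field 𝕂] {v : Valuation 𝕂 ℤᵐ⁰}
    {q : ℕ} {T : 𝕂} {θ : κ} (Z : ZD k κ 𝕂 v q T θ)
    {p r : ℕ} [hp : Fact p.Prime] [CharP 𝕂 p] (hqp : q = p ^ r) (hq : 2 ≤ q)
    (hqk : q = Fintype.card k)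
    (β : κ[X] →+* 𝕂) (hβ : ∀ a, β (mp k κ a) = Z.α a)
  (w : k[X]) (hw : w.Monic) (hwd : 1 ≤ w.natDegree)
  (hsurj : Function.Surjective (aeval θ : k[X] → κ)) (hwdvd : ∀ a : k[X], w ∣ a ↔ aeval θ a = 0)
  (hz : ∀ a, Z.z a = Z.α (rd θ w hsurj a) / Z.α w)
  (hα : ∀ f, Z.α f = 0 → f = 0)

/-- the summand -/
noncomputable def Gf (l : ℕ) (f : k[X]) : 𝕂 :=
  β (C ((aeval θ f) ^ (Fintype.card κ - 1 - l))) * dlg Z.D (Z.α f)

lemma sum_inv_pow (l : ℕ) (hl0 : 0 < l) (hl : l < Fintype.card κ - 1) :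
    ∑ a : κˣ, β (C ((a : κ)⁻¹ ^ l)) = 0 := by
  classical
  rw [← map_sum, ← map_sum]
  have h1 : ∑ a : κˣ, ((a : κ)⁻¹ ^ l) = ∑ a : κˣ, (a ^ l : κ) := by
    rw [← Equiv.sum_comp (Equiv.inv κˣ) (fun a : κˣ => ((a : κ) ^ l))]
    refine sum_congr rfl fun a _ => ?_
    simp
  have h2 : ∑ a : κˣ, (a ^ l : κ) = 0 := by
    have h3 := FiniteField.sum_pow_units κ l
    rw [if_neg] at h3
    · rw [← h3]
      exact Finset.sum_congr (by ext x; simp) (fun _ _ => rfl)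
    · intro h
      exact absurd (Nat.le_of_dvd hl0 h) (by omega)
  rw [h1, h2, C_0, map_zero]

include hqp hq hqk hwd hwdvd hz hα hw in
theorem sum_dlg (l : ℕ) (hl0 : 0 < l) (hl : l < Fintype.card κ - 1) (M : ℕ) :
    ∑ a : κˣ, β (C ((a : κ)⁻¹ ^ l)) * dlg Z.D (Z.x (a : κ) M) =
      ∑ f : Fin (M + 1 + w.natDegree) → k, Gf Z β l (low (M + 1 + w.natDegree) f) := by
  classical
  have hbr := br_ne v q T Z.hT hq
  obtain ⟨c, hc, hprod⟩ := prod_RM hqk T hqp hq hbr Z.α Z.hα (M + 1)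
  have hw1 : Z.α w ≠ 0 := fun h => hw.ne_zero (hα w h)
  have hcardpos : 0 < Fintype.card k := Fintype.card_pos
  have hne : ∀ (a : κˣ) (b : Fin (M + 1) → k),
      Z.α (rd θ w hsurj (a : κ) + w * low (M + 1) b) ≠ 0 := by
    intro a b h
    have h1 := hα _ h
    have h2 := congrArg (aeval θ) h1
    rw [map_add, map_mul, (hwdvd w).1 dvd_rfl, zero_mul, add_zero, rd_aeval θ w hsurj hwdvd, map_zero] at h2
    exact a.ne_zero h2
  have key : ∀ a : κˣ, dlg Z.D (Z.x (a : κ) M) =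
      (∑ b : Fin (M + 1) → k, dlg Z.D (Z.α (rd θ w hsurj (a : κ) + w * low (M + 1) b))) - dlg Z.D c := by
    intro a
    have h1 := hprod (Z.z (a : κ))
    have hx := Z.x_ne hq a.ne_zero M
    have h2 : ∀ b : Fin (M + 1) → k, (Z.z (a : κ) + Z.α (low (M + 1) b)) * Z.α w =
        Z.α (rd θ w hsurj (a : κ) + w * low (M + 1) b) := by
      intro b
      rw [hz, map_add, map_mul, add_mul, div_mul_cancel₀ _ hw1, mul_comm (Z.α (low _ _))]
    have h3 : ∀ b : Fin (M + 1) → k, Z.z (a : κ) + Z.α (low (M + 1) b) ≠ 0 := by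
      intro b h
      have := h2 b
      rw [h, zero_mul] at this
      exact hne a b this.symm
    have h4 : ∀ b : Fin (M + 1) → k, dlg Z.D (Z.z (a : κ) + Z.α (low (M + 1) b)) =
        dlg Z.D (Z.α (rd θ w hsurj (a : κ) + w * low (M + 1) b)) - dlg Z.D (Z.α w) := by
      intro b
      rw [← h2 b, dlg_mul Z.D (h3 b) hw1]; ring
    have h7 : RM q T (M + 1) (Z.z (a : κ)) = Z.x (a : κ) M := rfl
    rw [h7] at h1
    have h5 := congrArg (dlg Z.D) h1
    rw [dlg_prod Z.D _ _ (fun b _ => h3 b), dlg_mul Z.D hc hx, sum_congr rfl fun b _ => h4 b,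
      sum_sub_distrib, sum_const, card_univ, Fintype.card_fun, Fintype.card_fin, ← hqk] at h5
    have h6 : (q ^ (M + 1)) • dlg Z.D (Z.α w) = 0 := by
      have hr : r ≠ 0 := by
        intro h; rw [h, pow_zero] at hqp; omega
      have h8 : ((q ^ (M + 1) : ℕ) : 𝕂) = 0 := by
        have h9 : q ^ (M + 1) = p ^ (r * (M + 1)) := by rw [pow_mul, ← hqp]
        rw [h9, Nat.cast_pow, CharP.cast_eq_zero, zero_pow]
        exact mul_ne_zero hr (by omega)
      rw [nsmul_eq_mul, h8, zero_mul]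
    rw [h6, sub_zero] at h5
    rw [h5]
    ring
  have h1 : ∑ a : κˣ, β (C ((a : κ)⁻¹ ^ l)) * dlg Z.D (Z.x (a : κ) M) =
      ∑ a : κˣ, ∑ b : Fin (M + 1) → k, Gf Z β l (rd θ w hsurj (a : κ) + w * low (M + 1) b) := by
    have h2 : ∑ a : κˣ, β (C ((a : κ)⁻¹ ^ l)) * dlg Z.D c = 0 := by
      rw [← sum_mul, sum_inv_pow β l hl0 hl, zero_mul]
    rw [← add_zero (∑ a : κˣ, β (C ((a : κ)⁻¹ ^ l)) * dlg Z.D (Z.x (a : κ) M)), ← h2, ← sum_add_distrib]
    refine sum_congr rfl fun a _ => ?_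
    rw [key a, mul_sub, sub_add_cancel, mul_sum]
    refine sum_congr rfl fun b _ => ?_
    have h5 : aeval θ (rd θ w hsurj (a : κ) + w * low (M + 1) b) = a := by
      rw [map_add, map_mul, (hwdvd w).1 dvd_rfl, zero_mul, add_zero, rd_aeval θ w hsurj hwdvd]
    rw [Gf, h5]
    congr 3
    have h3 : (a : κ) ^ (Fintype.card κ - 1) = 1 := FiniteField.pow_card_sub_one_eq_one _ a.ne_zero
    have h4 : (a : κ) ^ l * (a : κ) ^ (Fintype.card κ - 1 - l) = 1 := by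
      rw [← pow_add, ← h3]; congr 1; omega
    rw [inv_pow]
    exact (eq_inv_of_mul_eq_one_right h4).symm
  have h2 : ∑ a : κˣ, ∑ b : Fin (M + 1) → k, Gf Z β l (rd θ w hsurj (a : κ) + w * low (M + 1) b) =
      ∑ a : κ, ∑ b : Fin (M + 1) → k, Gf Z β l (rd θ w hsurj a + w * low (M + 1) b) := by
    rw [← add_sum_erase univ _ (mem_univ (0 : κ))]
    have h3 : ∑ b : Fin (M + 1) → k, Gf Z β l (rd θ w hsurj 0 + w * low (M + 1) b) = 0 := by
      refine sum_eq_zero fun b _ => ?_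
      have h5 : aeval θ (rd θ w hsurj 0 + w * low (M + 1) b) = 0 := by
        rw [map_add, map_mul, (hwdvd w).1 dvd_rfl, zero_mul, add_zero, rd_aeval θ w hsurj hwdvd]
      rw [Gf, h5, zero_pow (by omega), C_0, map_zero, zero_mul]
    rw [h3, zero_add]
    symm
    refine sum_bij' (i := fun a ha => Units.mk0 a (mem_erase.1 ha).1) (j := fun a _ => (a : κ))
      (fun a _ => mem_univ _) (fun a _ => mem_erase.2 ⟨a.ne_zero, mem_univ _⟩) (fun a _ => rfl)
      (fun a _ => by ext; rfl) (fun a _ => rfl)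
  rw [h1, h2, ← Fintype.sum_prod_type']
  have hcardκ := card_kap θ w hw hsurj hwdvd
  -- the bijection
  have hdeg : ∀ x : κ × (Fin (M + 1) → k),
      (rd θ w hsurj x.1 + w * low (M + 1) x.2).degree < ((M + 1 + w.natDegree : ℕ) : WithBot ℕ) := by
    intro x
    refine lt_of_le_of_lt (degree_add_le _ _) (max_lt ?_ ?_)
    · refine lt_of_lt_of_le (rd_degree θ w hw hwd hsurj _) ?_
      refine degree_le_natDegree.trans ?_
      exact_mod_cast (by omega : w.natDegree ≤ M + 1 + w.natDegree)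
    · by_cases h : low (M + 1) x.2 = 0
      · rw [h, mul_zero, degree_zero]; exact WithBot.bot_lt_coe _
      · have hlt := low_degree (M + 1) x.2
        rw [degree_eq_natDegree h] at hlt
        rw [hw.degree_mul_comm, degree_mul, degree_eq_natDegree h, degree_eq_natDegree hw.ne_zero]
        have : (low (M + 1) x.2).natDegree < M + 1 := by exact_mod_cast hlt
        exact_mod_cast (by omega : (low (M + 1) x.2).natDegree + w.natDegree < M + 1 + w.natDegree)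
  set e : κ × (Fin (M + 1) → k) → (Fin (M + 1 + w.natDegree) → k) := fun x i =>
    (rd θ w hsurj x.1 + w * low (M + 1) x.2).coeff i with he
  have hlow : ∀ x, low (M + 1 + w.natDegree) (e x) = rd θ w hsurj x.1 + w * low (M + 1) x.2 := by
    intro x
    exact low_coeff _ _ (hdeg x)
  have hinj : Function.Injective e := by
    intro x y hxy
    have h3 : rd θ w hsurj x.1 + w * low (M + 1) x.2 = rd θ w hsurj y.1 + w * low (M + 1) y.2 := by
      rw [← hlow, ← hlow, hxy]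
    have h4 := congrArg (aeval θ) h3
    rw [map_add, map_mul, (hwdvd w).1 dvd_rfl, zero_mul, add_zero, rd_aeval θ w hsurj hwdvd,
      map_add, map_mul, (hwdvd w).1 dvd_rfl, zero_mul, add_zero, rd_aeval θ w hsurj hwdvd] at h4
    rw [h4] at h3
    have h5 := mul_left_cancel₀ hw.ne_zero (add_left_cancel h3)
    exact Prod.ext h4 (low_inj _ h5)
  have hbij : Function.Bijective e := by
    rw [Fintype.bijective_iff_injective_and_card]
    refine ⟨hinj, ?_⟩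
    rw [Fintype.card_prod, Fintype.card_fun, Fintype.card_fun, Fintype.card_fin, Fintype.card_fin, hcardκ,
      ← pow_add]
    congr 1
    ring
  refine Fintype.sum_bijective e hbij _ _ fun x => ?_
  rw [hlow]

include hqk hα hwdvd in
lemma Gf_smul (l : ℕ) (hql : (q - 1) ∣ l)
    (hqN : (q - 1) ∣ (Fintype.card κ - 1)) (c : k) (f : k[X]) (hc : c ≠ 0) :
    Gf Z β l (C c * f) = Gf Z β l f := by
  have h1 : (algebraMap k κ c) ^ (Fintype.card κ - 1 - l) = 1 := by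
    obtain ⟨s, hs⟩ := Nat.dvd_sub hqN hql
    rw [hs, ← map_pow, pow_mul, hqk, FiniteField.pow_card_sub_one_eq_one c hc, one_pow, map_one]
  rw [Gf, Gf, map_mul, aeval_C, mul_pow, h1, one_mul]
  congr 1
  by_cases hf : f = 0
  · rw [hf, mul_zero]
  · have h2 : Z.α (C c) ≠ 0 := fun h => hc (by simpa using hα _ h)
    have h3 : Z.α f ≠ 0 := fun h => hf (hα _ h)
    rw [map_mul, dlg_mul Z.D h2 h3, dlg, Z.hDC, zero_div, zero_add]

include hqp hq hqk hwd hwdvd hz hα hβ hw in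
theorem null_monic (l : ℕ) (hl0 : 0 < l) (hl : l < Fintype.card κ - 1) (hql : (q - 1) ∣ l)
    (hdvd : (rho q w).map (mp k κ) ∣ Ht q l w (rd θ w hsurj)) (c : ℤ) :
    ∃ J0, ∀ J ≥ J0, v (∑ j ∈ range J, ∑ a : Fin j → k, Gf Z β l (GB.mon j a)) ≤ exp c := by
  have hβw : β (mp k κ w) ≠ 0 := by
    rw [hβ]; exact fun h => hw.ne_zero (hα w h)
  have h1 := null_seq Z hqp hq β hβ w ((hwdvd w).1 dvd_rfl) (rd θ w hsurj) (rd_aeval θ w hsurj hwdvd) l hdvd hβw
  obtain ⟨M0, hM0⟩ := h1 c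
  refine ⟨M0 + 1 + w.natDegree, fun J hJ => ?_⟩
  obtain ⟨M, rfl⟩ : ∃ M, J = M + 1 + w.natDegree := ⟨J - 1 - w.natDegree, by omega⟩
  have h2 := hM0 M (by omega)
  beta_reduce at h2
  rw [sum_dlg Z hqp hq hqk β w hw hwd hsurj hwdvd hz hα l hl0 hl M] at h2
  have hqN : (q - 1) ∣ (Fintype.card κ - 1) := by
    rw [card_kap θ w hw hsurj hwdvd, ← hqk]
    exact Nat.sub_one_dvd_pow_sub_one q w.natDegree
  have hr : 0 < r := by
    rcases Nat.eq_zero_or_pos r with h | h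
    · rw [h, pow_zero] at hqp; omega
    · exact h
  have h3 := sum_low (Gf Z β l) p (fun x => by
    rw [zsmul_eq_mul]; simp) ⟨r, hr, by rw [← hqk, hqp]⟩
    (fun c f hc => Gf_smul Z hqk β w hwdvd hα l hql hqN c f hc) (M + 1 + w.natDegree)
  have h4 : Gf Z β l 0 = 0 := by
    rw [Gf, map_zero, zero_pow (by omega), C_0, map_zero, zero_mul]
  rw [h3, h4, zero_sub, Valuation.map_neg] at h2
  exact h2

end prodf

end Pool.Agent.D0H54.GA
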